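import Mathlib

set_option autoImplicit false

/-! Iterating a partial map. -/

namespace Pool.Agent.Helper702.FreePCP

section iter

variable {α β : Type}

/-- iterates of a partial map -/
def it (s : α → Option α) : ℕ → α → Option α
  | 0, x => some x
  | n + 1, x => (s x).bind (it s n)

/-- the iterates reach a point where the map is not defined -/
def Hlt (s : α → Option α) (x : α) : Prop := ∃ n, it s n x = none

theorem it_add (s : α → Option α) (m n : ℕ) : ∀ x, it s (m + n) x = (it s m x).bind (it s n) := by
  induction m with
  | zero => intro x; simp [it]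
  | succ m ih =>
    intro x
    rw [Nat.succ_add]
    simp only [it]
    cases s x with
    | none => rfl
    | some y => simp [ih]

theorem it_none_mono (s : α → Option α) {m n : ℕ} (h : m ≤ n) {x : α} (hx : it s m x = none) :
    it s n x = none := by
  obtain ⟨k, rfl⟩ := Nat.exists_eq_add_of_le h
  rw [it_add, hx]
  rfl

theorem hlt_step {s : α → Option α} {x y : α} (h : s x = some y) : Hlt s x ↔ Hlt s y := by
  constructor
  · rintro ⟨n, hn⟩
    rcases n with _ | n
    · simp [it] at hn
    · refine ⟨n, ?_⟩
      simpa [it, h] using hn
  · rintro ⟨n, hn⟩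
    exact ⟨n + 1, by simpa [it, h] using hn⟩

theorem hlt_it {s : α → Option α} {x y : α} {k : ℕ} (h : it s k x = some y) :
    Hlt s x ↔ Hlt s y := by
  constructor
  · rintro ⟨n, hn⟩
    refine ⟨n, ?_⟩
    have : it s (k + n) x = none := it_none_mono s (by omega) hn
    rw [it_add, h] at this
    exact this
  · rintro ⟨n, hn⟩
    refine ⟨k + n, ?_⟩
    rw [it_add, h]
    exact hn

/-- simulation -/
theorem simulate (s : α → Option α) (t : β → Option β) (R : α → β → Prop)
    (h1 : ∀ x y, R x y → s x = none → Hlt t y)
    (h2 : ∀ x y x', R x y → s x = some x' → ∃ k y', 1 ≤ k ∧ it t k y = some y' ∧ R x' y')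
    (x : α) (y : β) (h : R x y) : Hlt s x ↔ Hlt t y := by
  constructor
  · rintro ⟨n, hn⟩
    induction n generalizing x y with
    | zero => simp [it] at hn
    | succ n ih =>
      cases hs : s x with
      | none => exact h1 x y h hs
      | some x' =>
        obtain ⟨k, y', -, hk, hR⟩ := h2 x y x' h hs
        rw [hlt_it hk]
        refine ih x' y' hR ?_
        simpa [it, hs] using hn
  · rintro ⟨n, hn⟩
    induction n using Nat.strong_induction_on generalizing x y with
    | _ n ih =>
      cases hs : s x with
      | none => exact ⟨1, by simp [it, hs]⟩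
      | some x' =>
        obtain ⟨k, y', hk1, hk, hR⟩ := h2 x y x' h hs
        rw [hlt_step hs]
        have hlt : k < n := by
          by_contra hc
          rw [it_none_mono t (not_lt.1 hc) hn] at hk
          exact absurd hk (by simp)
        refine ih (n - k) (by omega) x' y' hR ?_
        have : n = k + (n - k) := by omega
        rw [this, it_add, hk] at hn
        exact hn

end iter

end Pool.Agent.Helper702.FreePCP
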