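import Mathlib
import Pool.Agent.Helper702.FreePCP.Source
import Pool.Agent.Helper702.FreePCP.Iter

set_option autoImplicit false

/-! Two-counter machines which swap their counters at each step. -/

namespace Pool.Agent.Helper702.FreePCP

/-- A machine with two counters: in state `q` with counters `(x, y)` the new counters are
`(y, c q * (x / B) + d q (x % B))` and the new state is given by `nxt q (x % B)`. -/
structure BM (Q : Type) where
  B : ℕ
  hB : 0 < B
  g : ℕ
  c : Q → ℕ
  d : Q → ℕ → ℕ
  nxt : Q → ℕ → Option Q
  hc : ∀ q, 1 ≤ c q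
  hd : ∀ q r, d q r ≤ g

namespace BM

variable {Q : Type} (M : BM Q)

/-- one step -/
def step (x : Q × ℕ × ℕ) : Option (Q × ℕ × ℕ) :=
  (M.nxt x.1 (x.2.1 % M.B)).map fun q' =>
    (q', x.2.2, M.c x.1 * (x.2.1 / M.B) + M.d x.1 (x.2.1 % M.B))

end BM

open Src

/-- one step of the source machine -/
def Src.Sys.stp {Q : Type} (M : Src.Sys Q Bool) (x : Q × (Bool → ℕ)) :
    Option (Q × (Bool → ℕ)) :=
  (M.nxt x.1 (M.res x.2)).map fun q' => (q', M.nn x.1 x.2)

theorem sys_hlt {Q : Type} (M : Src.Sys Q Bool) (q : Q) (n : Bool → ℕ) :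
    M.Halts (some q) n ↔ Hlt M.stp (q, n) := by
  constructor
  · intro h
    generalize ho : some q = o at h
    induction h generalizing q with
    | stop n => exact absurd ho (by simp)
    | step q' n h ih =>
      obtain rfl : q = q' := Option.some.inj ho
      cases hn : M.nxt q (M.res n) with
      | none => exact ⟨1, by simp [it, Src.Sys.stp, hn]⟩
      | some q1 =>
        have := ih q1 hn.symm
        rw [hlt_step (y := (q1, M.nn q n)) (by simp [Src.Sys.stp, hn])]
        exact this
  · rintro ⟨k, hk⟩
    induction k generalizing q n with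
    | zero => simp [it] at hk
    | succ k ih =>
      apply Src.Sys.Halts.step
      cases hn : M.nxt q (M.res n) with
      | none => exact Src.Sys.Halts.stop _
      | some q1 =>
        apply ih
        simpa [it, Src.Sys.stp, hn] using hk

/-- the states of the swap machine -/
abbrev St (Q : Type) (B : ℕ) := Q ⊕ (Q × Fin B) ⊕ (Bool × Q × Fin B × Fin B)

/-- the residue of a number -/
def fr {B : ℕ} (hB : 0 < B) (r : ℕ) : Fin B := ⟨r % B, Nat.mod_lt _ hB⟩

/-- pairs of residues -/
def pr {B : ℕ} (r1 r0 : Fin B) : Bool → Fin B := fun j => if j then r1 else r0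

/-- the swap machine of a source machine -/
def toBM {Q : Type} (M : Src.Sys Q Bool) : BM (St Q M.B) where
  B := M.B
  hB := M.hB
  g := M.l
  c := fun s => match s with
    | .inl _ => M.B
    | .inr (.inl _) => M.B
    | .inr (.inr (b, q, r1, r0)) => max 1 (M.a q (pr r1 r0) (!b))
  d := fun s _ => match s with
    | .inl _ => 0
    | .inr (.inl _) => 0
    | .inr (.inr (b, q, r1, r0)) => M.b q (pr r1 r0) (!b)
  nxt := fun s r => match s with
    | .inl q => some (.inr (.inl (q, fr M.hB r)))
    | .inr (.inl (q, r1)) => some (.inr (.inr (false, q, r1, fr M.hB r)))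
    | .inr (.inr (false, q, r1, r0)) => some (.inr (.inr (true, q, r1, r0)))
    | .inr (.inr (true, q, r1, r0)) => (M.nxt q (pr r1 r0)).map .inl
  hc := by
    rintro (q | ⟨q, r⟩ | ⟨b, q, r1, r0⟩)
    · exact M.hB
    · exact M.hB
    · exact le_max_left _ _
  hd := by
    rintro (q | ⟨q, r⟩ | ⟨b, q, r1, r0⟩) r
    · exact Nat.zero_le _
    · exact Nat.zero_le _
    · exact M.hb _ _ _

theorem toBM_run {Q : Type} (M : Src.Sys Q Bool) (q : Q) (n : Bool → ℕ) :
    it (toBM M).step 3 (.inl q, n true, n false) = some
      (.inr (.inr (true, q, M.res n true, M.res n false)), M.B * (n false / M.B),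
        (max 1 (M.a q (M.res n) true)) * (n true / M.B) + M.b q (M.res n) true) := by
  have hB := M.hB
  have hres : (pr (M.res n true) (M.res n false)) = M.res n := by
    funext j
    cases j <;> rfl
  have e1 : (toBM M).step (.inl q, n true, n false) =
      some (.inr (.inl (q, M.res n true)), n false, M.B * (n true / M.B)) := by
    simp only [BM.step, toBM, Option.map_some, add_zero, Option.some.injEq, Prod.mk.injEq,
      Sum.inr.injEq, Sum.inl.injEq, true_and, and_true]
    apply Fin.ext
    simp [fr, Src.Sys.res]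
  have e2 : (toBM M).step (.inr (.inl (q, M.res n true)), n false, M.B * (n true / M.B)) =
      some (.inr (.inr (false, q, M.res n true, M.res n false)), M.B * (n true / M.B),
        M.B * (n false / M.B)) := by
    simp only [BM.step, toBM, Option.map_some, add_zero, Option.some.injEq, Prod.mk.injEq,
      Sum.inr.injEq, true_and, and_true]
    apply Fin.ext
    simp [fr, Src.Sys.res]
  have e3 : (toBM M).step (.inr (.inr (false, q, M.res n true, M.res n false)),
      M.B * (n true / M.B), M.B * (n false / M.B)) = some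
      (.inr (.inr (true, q, M.res n true, M.res n false)), M.B * (n false / M.B),
        (max 1 (M.a q (M.res n) true)) * (n true / M.B) + M.b q (M.res n) true) := by
    simp only [BM.step, toBM, Option.map_some, hres, Bool.not_false]
    rw [Nat.mul_div_cancel_left _ hB]
  simp only [it, e1, e2, e3, Option.bind_some]

theorem toBM_last {Q : Type} (M : Src.Sys Q Bool) (q : Q) (n : Bool → ℕ) (z : ℕ) :
    (toBM M).step (.inr (.inr (true, q, M.res n true, M.res n false)), M.B * (n false / M.B), z) =
      (M.nxt q (M.res n)).map fun q' => (.inl q', z,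
        (max 1 (M.a q (M.res n) false)) * (n false / M.B) + M.b q (M.res n) false) := by
  have hB := M.hB
  have hres : (pr (M.res n true) (M.res n false)) = M.res n := by
    funext j
    cases j <;> rfl
  simp only [BM.step, toBM, hres, Bool.not_true]
  rw [Nat.mul_div_cancel_left _ hB, Option.map_map]
  rfl

theorem toBM_hlt {Q : Type} (M : Src.Sys Q Bool)
    (hM : ∀ q r j, (M.nxt q r).isSome → 1 ≤ M.a q r j) (q : Q) (n : Bool → ℕ) :
    Hlt M.stp (q, n) ↔ Hlt (toBM M).step (.inl q, n true, n false) := by
  refine simulate M.stp (toBM M).step (fun x y => y = (.inl x.1, x.2 true, x.2 false)) ?_ ?_ _ _ rfl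
  · rintro ⟨q, n⟩ y rfl hs
    rw [hlt_it (toBM_run M q n)]
    refine ⟨1, ?_⟩
    simp only [it, toBM_last]
    have : M.nxt q (M.res n) = none := by
      cases h : M.nxt q (M.res n) with
      | none => rfl
      | some _ => rw [Src.Sys.stp] at hs; simp [h] at hs
    simp [this]
  · rintro ⟨q, n⟩ y ⟨q', n'⟩ rfl hs
    have h : M.nxt q (M.res n) = some q' ∧ M.nn q n = n' := by
      rw [Src.Sys.stp] at hs
      cases h : M.nxt q (M.res n) with
      | none => simp [h] at hs
      | some _ => simpa [h] using hs
    obtain ⟨h1, rfl⟩ := h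
    refine ⟨4, _, by norm_num, ?_, rfl⟩
    have : (4 : ℕ) = 3 + 1 := rfl
    rw [this, it_add, toBM_run]
    simp only [Option.bind_some, it, toBM_last, h1, Option.map_some]
    have ht := hM q (M.res n) true (by simp [h1])
    have hf := hM q (M.res n) false (by simp [h1])
    simp only [Src.Sys.nn, max_eq_right ht, max_eq_right hf]

/-- A fixed finite swap machine with undecidable halting problem. -/
theorem exists_bm : ∃ (Q : Type) (_ : Finite Q) (M : BM Q) (q0 : Q) (N : ℕ → ℕ),
    Computable N ∧ ¬ ComputablePred (fun n => Hlt M.step (q0, N n, 0)) := by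
  obtain ⟨Q, hQ, M, q0, N, h1, h2, h3⟩ := Src.exists_sys
  refine ⟨St Q M.B, inferInstance, toBM M, .inl q0, N, h2, ?_⟩
  intro h
  apply h3
  refine h.of_eq ?_
  intro n
  rw [sys_hlt, toBM_hlt M h1]
  rfl

end Pool.Agent.Helper702.FreePCP
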