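import Mathlib

set_option autoImplicit false

/-! Equations in a free product of two copies of a group, twisted by a partial homomorphism which
exchanges the two copies. -/

namespace Pool.Agent.Helper702.FreePCP

open Monoid

section words

variable {A : Type} [Group A]

/-- the free product of two copies -/
abbrev G2 (A : Type) [Group A] := CoprodI (fun _ : Bool => A)

/-- the inclusion of a copy -/
def inc (b : Bool) : A →* G2 A := CoprodI.of (M := fun _ : Bool => A) (i := b)

/-- the product of a list of syllables -/
def P (l : List (Bool × A)) : G2 A := (l.map fun x => inc x.1 x.2).prod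

/-- reduced lists -/
def Red (l : List (Bool × A)) : Prop :=
  (∀ x ∈ l, x.2 ≠ 1) ∧ l.IsChain (fun x y => x.1 ≠ y.1)

@[simp] theorem P_nil : P ([] : List (Bool × A)) = 1 := rfl

@[simp] theorem P_cons (x : Bool × A) (l : List (Bool × A)) : P (x :: l) = inc x.1 x.2 * P l := by
  simp [P]

@[simp] theorem P_append (l l' : List (Bool × A)) : P (l ++ l') = P l * P l' := by
  simp [P]

/-- list of a word -/
def toL (w : CoprodI.Word (fun _ : Bool => A)) : List (Bool × A) :=
  w.toList.map (fun x => (x.1, x.2))

theorem P_toL (w : CoprodI.Word (fun _ : Bool => A)) : P (toL w) = w.prod := by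
  simp only [P, toL, CoprodI.Word.prod, List.map_map]
  rfl

/-- the word of a reduced list -/
def ofL (l : List (Bool × A)) (h : Red l) : CoprodI.Word (fun _ : Bool => A) where
  toList := l.map (fun x => ⟨x.1, x.2⟩)
  ne_one := by
    intro x hx
    obtain ⟨y, hy, rfl⟩ := List.mem_map.1 hx
    exact h.1 y hy
  chain_ne := by
    rw [List.isChain_map]
    exact h.2

theorem prod_ofL (l : List (Bool × A)) (h : Red l) : (ofL l h).prod = P l := by
  simp only [P, ofL, CoprodI.Word.prod, List.map_map]
  rfl

theorem red_toL (w : CoprodI.Word (fun _ : Bool => A)) : Red (toL w) := by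
  constructor
  · intro x hx
    obtain ⟨y, hy, rfl⟩ := List.mem_map.1 hx
    exact w.ne_one y hy
  · unfold toL
    rw [List.isChain_map]
    exact w.chain_ne

theorem P_inj {l l' : List (Bool × A)} (h : Red l) (h' : Red l') (e : P l = P l') : l = l' := by
  classical
  have : ofL l h = ofL l' h' := by
    apply (CoprodI.Word.equiv (M := fun _ : Bool => A)).symm.injective
    change (ofL l h).prod = (ofL l' h').prod
    rw [prod_ofL, prod_ofL, e]
  have e2 := congrArg CoprodI.Word.toList this
  change l.map (fun x => (⟨x.1, x.2⟩ : Σ _ : Bool, A)) = l'.map (fun x => ⟨x.1, x.2⟩) at e2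
  refine List.map_injective_iff.2 ?_ e2
  intro x y hxy
  simp only [Sigma.mk.injEq, heq_eq_eq] at hxy
  exact Prod.ext hxy.1 hxy.2

theorem exists_red (f : G2 A) : ∃ l : List (Bool × A), Red l ∧ P l = f := by
  classical
  refine ⟨toL (CoprodI.Word.equiv f), red_toL _, ?_⟩
  rw [P_toL]
  exact (CoprodI.Word.equiv (M := fun _ : Bool => A)).symm_apply_apply f

theorem red_nil : Red ([] : List (Bool × A)) := ⟨by simp, List.isChain_nil⟩

theorem red_tail {x : Bool × A} {l : List (Bool × A)} (h : Red (x :: l)) : Red l :=
  ⟨fun y hy => h.1 y (List.mem_cons_of_mem _ hy), h.2.tail⟩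

/-- reduction of a list -/
theorem reduce (l : List (Bool × A)) : ∃ r : List (Bool × A), Red r ∧ P r = P l ∧
    r.length ≤ l.length ∧ (r.length = l.length → ∀ x ∈ l, x.2 ≠ 1) := by
  classical
  induction l with
  | nil => exact ⟨[], red_nil, rfl, le_refl _, by simp⟩
  | cons x l ih =>
    obtain ⟨r, hr, hP, hlen, heq⟩ := ih
    by_cases hx : x.2 = 1
    · refine ⟨r, hr, ?_, ?_, ?_⟩
      · rw [P_cons, hx, map_one, one_mul, hP]
      · simp only [List.length_cons]; omega
      · intro h
        simp only [List.length_cons] at h
        omega
    · rcases r with _ | ⟨y, r⟩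
      · refine ⟨[x], ⟨by simpa using hx, by simp⟩, ?_, ?_, ?_⟩
        · rw [P_cons, P_cons, ← hP]
        · simp
        · intro h
          simp only [List.length_cons, List.length_nil] at h
          have hl : l = [] := List.length_eq_zero_iff.1 (by omega)
          subst hl
          simpa using hx
      · by_cases hxy : x.1 = y.1
        · by_cases hm : x.2 * y.2 = 1
          · refine ⟨r, red_tail hr, ?_, ?_, ?_⟩
            · rw [P_cons, ← hP, P_cons, hxy, ← mul_assoc, ← map_mul, hm, map_one, one_mul]
            · simp only [List.length_cons] at *; omega
            · intro h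
              simp only [List.length_cons] at *
              omega
          · refine ⟨(y.1, x.2 * y.2) :: r, ⟨?_, ?_⟩, ?_, ?_, ?_⟩
            · intro z hz
              rcases List.mem_cons.1 hz with rfl | hz
              · exact hm
              · exact hr.1 z (List.mem_cons_of_mem _ hz)
            · have := hr.2
              rw [List.isChain_cons] at this ⊢
              exact this
            · rw [P_cons, P_cons, ← hP, P_cons, hxy, map_mul, mul_assoc]
            · simp only [List.length_cons] at *; omega
            · intro h
              simp only [List.length_cons] at *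
              omega
        · refine ⟨x :: y :: r, ⟨?_, ?_⟩, ?_, ?_, ?_⟩
          · intro z hz
            rcases List.mem_cons.1 hz with rfl | hz
            · exact hx
            · exact hr.1 z hz
          · exact List.IsChain.cons_cons hxy hr.2
          · rw [P_cons, P_cons x l, ← hP]
          · simp only [List.length_cons] at *; omega
          · intro h z hz
            simp only [List.length_cons] at *
            rcases List.mem_cons.1 hz with rfl | hz
            · exact hx
            · exact heq (by omega) z hz

/-- a reduced list is the shortest one, and the only alternating one of its length -/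
theorem key {r l : List (Bool × A)} (hr : Red r) (hl : l.IsChain (fun x y => x.1 ≠ y.1))
    (e : P r = P l) : r.length ≤ l.length ∧ (r.length = l.length → r = l) := by
  obtain ⟨r', hr', hP, hlen, heq⟩ := reduce l
  have e2 : r = r' := P_inj hr hr' (e.trans hP.symm)
  subst e2
  refine ⟨hlen, fun h => P_inj hr ⟨heq h, hl⟩ e⟩

end words

section twist

variable {F H : Type} [Group F] [Group H] (γ η : H →* F)

/-- the inclusion -/
def gh : G2 H →* G2 F := CoprodI.lift (fun b => (inc b).comp γ)

/-- the twisted homomorphism -/
def hh : G2 H →* G2 F := CoprodI.lift (fun b => (inc (!b)).comp η)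

@[simp] theorem gh_inc (b : Bool) (y : H) : gh γ (inc b y) = inc b (γ y) := by
  unfold gh inc
  rw [CoprodI.lift_of]
  rfl

@[simp] theorem hh_inc (b : Bool) (y : H) : hh η (inc b y) = inc (!b) (η y) := by
  unfold hh inc
  rw [CoprodI.lift_of]
  rfl

/-- list version of the inclusion -/
def gL (l : List (Bool × H)) : List (Bool × F) := l.map fun x => (x.1, γ x.2)

/-- list version of the twisted homomorphism -/
def hL (l : List (Bool × H)) : List (Bool × F) := l.map fun x => (!x.1, η x.2)

theorem gh_P (l : List (Bool × H)) : gh γ (P l) = P (gL γ l) := by
  induction l with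
  | nil => simp [gL]
  | cons x l ih => simp [gL, ih]

theorem hh_P (l : List (Bool × H)) : hh η (P l) = P (hL η l) := by
  induction l with
  | nil => simp [hL]
  | cons x l ih => simp [hL, ih]


theorem red_gL (hγ : Function.Injective γ) {l : List (Bool × H)} (h : Red l) : Red (gL γ l) := by
  constructor
  · intro x hx
    obtain ⟨y, hy, rfl⟩ := List.mem_map.1 hx
    intro e
    apply h.1 y hy
    apply hγ
    rw [map_one]
    exact e
  · unfold gL
    rw [List.isChain_map]
    exact h.2

theorem alt_hL {l : List (Bool × H)} (h : Red l) :
    (hL η l).IsChain (fun x y => x.1 ≠ y.1) := by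
  unfold hL
  rw [List.isChain_map]
  refine h.2.imp ?_
  intro a b hab
  simpa using hab

@[simp] theorem length_gL (l : List (Bool × H)) : (gL γ l).length = l.length := by simp [gL]

@[simp] theorem length_hL (l : List (Bool × H)) : (hL η l).length = l.length := by simp [hL]

/-- No fixed points. -/
theorem no_fixed (hγ : Function.Injective γ) (f : G2 H) (h : gh γ f = hh η f) : f = 1 := by
  obtain ⟨l, hl, rfl⟩ := exists_red f
  rw [gh_P, hh_P] at h
  have := (key (red_gL γ hγ hl) (alt_hL η hl) h).2 (by simp)
  rcases l with _ | ⟨x, l⟩
  · rfl
  · simp [gL, hL] at this

/-- the orbit reaches the identity -/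
inductive Dies : F → Prop
  | one : Dies 1
  | step (y : H) : Dies (η y) → Dies (γ y)

/-- The equation of a start. -/
theorem start_eq (hγ : Function.Injective γ) (n : ℕ) : ∀ (l : List (Bool × H)), l.length = n →
    Red l → ∀ (b : Bool) (u : F), u ≠ 1 → P (gL γ l) = inc b u * P (hL η l) → Dies γ η u := by
  induction n with
  | zero =>
    intro l hn hl b u hu h
    have : l = [] := List.length_eq_zero_iff.1 hn
    subst this
    exfalso
    apply hu
    simp only [gL, hL, List.map_nil, P_nil, mul_one] at h
    exact (CoprodI.of_injective (M := fun _ : Bool => F) b (by rw [map_one]; exact h)).symm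
  | succ n ih =>
    intro l hn hl b u hu h
    have h' : P ((b, u⁻¹) :: gL γ l) = P (hL η l) := by
      rw [P_cons, h]
      simp
    rcases l with _ | ⟨x, l⟩
    · simp at hn
    have hg := red_gL γ hγ hl
    by_cases hx : x.1 = b
    · by_cases hy : γ x.2 = u
      · have h2 : P (gL γ l) = inc (!b) (η x.2) * P (hL η l) := by
          have : P (gL γ (x :: l)) = inc b u * P (gL γ l) := by
            simp [gL, hx, hy]
          rw [this] at h
          have h3 := mul_left_cancel h
          rw [h3]
          simp [hL, hx]
        by_cases he : η x.2 = 1
        · rw [← hy]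
          apply Dies.step
          rw [he]
          exact Dies.one
        · rw [← hy]
          apply Dies.step
          exact ih l (by simpa using hn) (red_tail hl) (!b) (η x.2) he h2
      · exfalso
        have hr : Red ((b, u⁻¹ * γ x.2) :: gL γ l) := by
          constructor
          · intro z hz
            rcases List.mem_cons.1 hz with rfl | hz
            · intro e
              apply hy
              have : u⁻¹ * γ x.2 = 1 := e
              exact (inv_mul_eq_one.1 this).symm
            · exact hg.1 z (List.mem_cons_of_mem _ hz)
          · have := hg.2
            simp only [gL, List.map_cons] at this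
            rw [List.isChain_cons] at this ⊢
            subst hx
            exact this
        have e : P ((b, u⁻¹ * γ x.2) :: gL γ l) = P (hL η (x :: l)) := by
          rw [← h']
          simp [gL, hx, mul_assoc]
        have := (key hr (alt_hL η hl) e).2 (by simp)
        simp [hL, hx] at this
    · exfalso
      have hr : Red ((b, u⁻¹) :: gL γ (x :: l)) := by
        constructor
        · intro z hz
          rcases List.mem_cons.1 hz with rfl | hz
          · simpa using hu
          · exact hg.1 z hz
        · refine List.IsChain.cons_cons ?_ hg.2
          exact fun e => hx e.symm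
      have := (key hr (alt_hL η hl) h').1
      simp at this

/-- The equation of a start has no solution unless the orbit reaches the identity. -/
theorem no_start (hγ : Function.Injective γ) (b : Bool) (u : F) (hu : ¬ Dies γ η u) (f : G2 H) :
    gh γ f ≠ inc b u * hh η f := by
  intro h
  obtain ⟨l, hl, rfl⟩ := exists_red f
  rw [gh_P, hh_P] at h
  refine hu (start_eq γ η hγ _ l rfl hl b u ?_ h)
  rintro rfl
  exact hu Dies.one


section conj

variable (U : ℕ → F) (Y : ℕ → H)

theorem chase (hγ : Function.Injective γ) (hU : ∀ k, γ (Y k) = U k)
    (hS : ∀ k, η (Y k) = U (k + 1)) (b : Bool) (u : F) (t : List (Bool × H)) :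
    ∀ (x : Bool × H) (k : ℕ), hL η (x :: t) = gL γ t ++ [(b, u)] → γ x.2 = U k →
      u = U (k + (t.length + 1)) := by
  induction t with
  | nil =>
    intro x k h hx
    simp only [hL, gL, List.map_cons, List.map_nil, List.nil_append, List.cons.injEq,
      Prod.mk.injEq, and_true] at h
    have e : x.2 = Y k := hγ (hx.trans (hU k).symm)
    rw [← h.2, e, hS]
    rfl
  | cons y t ih =>
    intro x k h hx
    simp only [hL, gL, List.map_cons, List.cons_append, List.cons.injEq, Prod.mk.injEq] at h
    have e : x.2 = Y k := hγ (hx.trans (hU k).symm)
    have e2 : γ y.2 = U (k + 1) := by rw [← h.1.2, e, hS]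
    have := ih y (k + 1) (by simpa [hL, gL] using h.2) e2
    rw [this]
    congr 1
    simp only [List.length_cons]
    omega

theorem chase' (hγ : Function.Injective γ) (hU : ∀ k, γ (Y k) = U k)
    (hS : ∀ k, η (Y k) = U (k + 1)) (b : Bool) (u : F) (t : List (Bool × H)) :
    ∀ (x : Bool × H) (k : ℕ), hL η (t ++ [x]) = (b, u) :: gL γ t → γ x.2 = (U k)⁻¹ →
      u = (U (k + (t.length + 1)))⁻¹ := by
  induction t using List.reverseRecOn with
  | nil =>
    intro x k h hx
    simp only [hL, gL, List.map_cons, List.map_nil, List.nil_append, List.cons.injEq,
      Prod.mk.injEq, and_true] at h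
    have e : x.2 = (Y k)⁻¹ := hγ (by rw [map_inv, hU]; exact hx)
    rw [← h.2, e, map_inv, hS]
    rfl
  | append_singleton t y ih =>
    intro x k h hx
    have h' : hL η (t ++ [y]) ++ [(!x.1, η x.2)] = ((b, u) :: gL γ t) ++ [(y.1, γ y.2)] := by
      simpa [hL, gL] using h
    have h2 := List.append_inj' h' rfl
    have e : x.2 = (Y k)⁻¹ := hγ (by rw [map_inv, hU]; exact hx)
    have h3 := h2.2
    simp only [List.cons.injEq, Prod.mk.injEq, and_true] at h3
    have e2 : γ y.2 = (U (k + 1))⁻¹ := by rw [← h3.2, e, map_inv, hS]
    have := ih y (k + 1) h2.1 e2
    rw [this]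
    congr 2
    simp only [List.length_append, List.length_cons, List.length_nil]
    omega

theorem conj_eq (hγ : Function.Injective γ) (hU : ∀ k, γ (Y k) = U k)
    (hS : ∀ k, η (Y k) = U (k + 1)) (hinj : Function.Injective U) (h1 : ∀ k, U k ≠ 1) (n : ℕ) :
    ∀ (l : List (Bool × H)), l.length = n → Red l → ∀ (b : Bool) (k : ℕ),
      P (gL γ l) = inc b (U k) * P (hL η l) * (inc b (U k))⁻¹ → l = [] := by
  induction n using Nat.strong_induction_on with
  | _ n ih =>
    intro l hn hl b k h
    have hg := red_gL γ hγ hl
    have h' : P ((b, (U k)⁻¹) :: (gL γ l ++ [(b, U k)])) = P (hL η l) := by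
      rw [P_cons, P_append, h]
      simp [mul_assoc]
    rcases l with _ | ⟨x, t⟩
    · rfl
    exfalso
    rcases List.eq_nil_or_concat t with rfl | ⟨m, z, rfl⟩
    · -- a single syllable
      by_cases hx : x.1 = b
      · have hr : Red [(b, (U k)⁻¹ * γ x.2 * U k)] := by
          refine ⟨?_, by simp⟩
          intro w hw
          rw [List.mem_singleton] at hw
          subst hw
          intro e
          have hx1 := hg.1 (x.1, γ x.2) (by simp [gL])
          apply hx1
          have e' : (U k)⁻¹ * γ x.2 * U k = 1 := e
          have : γ x.2 = U k * 1 * (U k)⁻¹ := by rw [← e']; group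
          simpa using this
        have e : P [(b, (U k)⁻¹ * γ x.2 * U k)] = P (hL η [x]) := by
          rw [← h']
          simp [gL, hx, mul_assoc]
        have := (key hr (alt_hL η hl) e).2 (by simp)
        simp [hL, hx] at this
      · have hr : Red ((b, (U k)⁻¹) :: (gL γ [x] ++ [(b, U k)])) := by
          constructor
          · intro w hw
            simp only [gL, List.map_cons, List.map_nil, List.cons_append, List.nil_append,
              List.mem_cons, List.not_mem_nil, or_false] at hw
            rcases hw with rfl | rfl | rfl
            · simpa using h1 k
            · exact hg.1 _ (by simp [gL])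
            · exact h1 k
          · simp only [gL, List.map_cons, List.map_nil, List.cons_append, List.nil_append]
            refine List.IsChain.cons_cons (fun e => hx e.symm)
              (List.IsChain.cons_cons hx (by simp))
        have := (key hr (alt_hL η hl) h').1
        simp at this
    · simp only [List.concat_eq_append] at *
      have hlast : Red (gL γ m ++ [(z.1, γ z.2)]) := by
        have := red_tail (x := (x.1, γ x.2)) (l := gL γ (m ++ [z])) (by simpa [gL] using hg)
        simpa [gL] using this
      have hx1 : γ x.2 ≠ 1 := hg.1 (x.1, γ x.2) (by simp [gL])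
      have hz1 : γ z.2 ≠ 1 := hlast.1 (z.1, γ z.2) (by simp)
      -- chain facts
      have hc' : ((x.1, γ x.2) :: (gL γ m ++ [(z.1, γ z.2)])).IsChain (fun x y => x.1 ≠ y.1) := by
        simpa [gL] using hg.2
      have hnt : ∀ w ∈ gL γ m, w.2 ≠ 1 := fun w hw => hlast.1 w (List.mem_append_left _ hw)
      have hconj : ∀ l' : List (Bool × H), P l' = (inc b (Y k))⁻¹ * P (x :: (m ++ [z])) *
          inc b (Y k) → P (gL γ l') = inc (!b) (U (k + 1)) * P (hL η l') *
            (inc (!b) (U (k + 1)))⁻¹ := by
        intro l' e
        rw [← gh_P, ← hh_P, e]
        simp only [map_mul, map_inv, gh_inc, hh_inc, hU, hS]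
        rw [gh_P, hh_P, h]
        group
      have hchg : ∀ (u v : F) (c : Bool), c = x.1 → ((c, u) :: (gL γ m ++ [(z.1, v)])).IsChain
          (fun x y => x.1 ≠ y.1) := by
        intro u v c hcx
        have e1 : ((c, u) :: (gL γ m ++ [(z.1, v)])).map Prod.fst =
            ((x.1, γ x.2) :: (gL γ m ++ [(z.1, γ z.2)])).map Prod.fst := by
          simp [hcx]
        have e2 : ∀ L : List (Bool × F), L.IsChain (fun x y => x.1 ≠ y.1) ↔
            (L.map Prod.fst).IsChain (fun a b => a ≠ b) := by
          intro L
          rw [List.isChain_map]
        rw [e2, e1, ← e2]
        exact hc'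
      have hred : ∀ (u v : F) (c : Bool), c = x.1 → u ≠ 1 → v ≠ 1 →
          Red ((c, u) :: (gL γ m ++ [(z.1, v)])) := by
        intro u v c hcx hu hv
        refine ⟨?_, hchg u v c hcx⟩
        intro w hw
        rw [List.mem_cons, List.mem_append, List.mem_singleton] at hw
        rcases hw with rfl | hw | rfl
        · exact hu
        · exact hnt w hw
        · exact hv
      have hpre : ∀ (L : List (Bool × F)) (w : Bool × F), Red (w :: L) → b ≠ w.1 →
          Red ((b, (U k)⁻¹) :: w :: L) := by
        intro L w hL hb
        refine ⟨?_, List.IsChain.cons_cons hb hL.2⟩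
        intro y hy
        rcases List.mem_cons.1 hy with rfl | hy
        · simpa using h1 k
        · exact hL.1 y hy
      have hpost : ∀ (L : List (Bool × F)) (w : Bool × F), Red (L ++ [w]) → w.1 ≠ b →
          Red ((L ++ [w]) ++ [(b, U k)]) := by
        intro L w hL hb
        refine ⟨?_, ?_⟩
        · intro y hy
          rcases List.mem_append.1 hy with hy | hy
          · exact hL.1 y hy
          · rw [List.mem_singleton] at hy
            subst hy
            exact h1 k
        · rw [List.isChain_append]
          refine ⟨hL.2, by simp, ?_⟩
          intro y hy y' hy'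
          simp only [List.getLast?_append, List.getLast?_singleton, Option.some_or,
            Option.mem_def, Option.some.injEq, List.head?_cons] at hy hy'
          subst hy hy'
          exact hb
      have hPl : P (hL η (x :: (m ++ [z]))) =
          P ((b, (U k)⁻¹) :: (x.1, γ x.2) :: (gL γ m ++ [(z.1, γ z.2)] ++ [(b, U k)])) := by
        rw [← h']
        simp [gL]
      by_cases hxb : x.1 = b
      · by_cases hzb : z.1 = b
        · -- both equal
          have hmne : m ≠ [] := by
            rintro rfl
            have := hc'
            simp only [gL, List.map_nil, List.nil_append, List.isChain_cons_cons] at this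
            exact this.1 (hxb.trans hzb.symm)
          by_cases hxu : γ x.2 = U k
          · have ex : x.2 = Y k := hγ (hxu.trans (hU k).symm)
            by_cases hz : z.2 * Y k = 1
            · have hm : Red m := by
                refine ⟨fun w hw => hl.1 w (by simp [hw]), ?_⟩
                have := (red_tail hl).2
                rw [List.isChain_append] at this
                exact this.1
              have e := hconj m (by
                simp only [P_cons, P_append, P_nil, hxb, hzb, ex, mul_one]
                have : inc b z.2 = (inc b (Y k))⁻¹ := by
                  rw [← map_inv, eq_inv_of_mul_eq_one_left hz]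
                rw [this]
                group)
              exact hmne (ih m.length (by simp at hn; omega) m rfl hm (!b) (k + 1) e)
            · have hm : Red (m ++ [(b, z.2 * Y k)]) := by
                refine ⟨?_, ?_⟩
                · intro w hw
                  rcases List.mem_append.1 hw with hw | hw
                  · exact hl.1 w (by simp [hw])
                  · rw [List.mem_singleton] at hw
                    subst hw
                    exact hz
                · have := (red_tail hl).2
                  rw [List.isChain_append] at this ⊢
                  refine ⟨this.1, by simp, ?_⟩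
                  intro y hy y' hy'
                  simp only [List.head?_cons, Option.mem_def, Option.some.injEq] at hy'
                  subst hy'
                  have := this.2.2 y hy z (by simp)
                  rw [hzb] at this
                  exact this
              have e := hconj (m ++ [(b, z.2 * Y k)]) (by
                simp only [P_cons, P_append, P_nil, hxb, hzb, ex, mul_one, map_mul]
                group)
              have := ih (m ++ [(b, z.2 * Y k)]).length (by simp at hn ⊢; omega)
                _ rfl hm (!b) (k + 1) e
              simp at this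
          · by_cases hzu : γ z.2 = (U k)⁻¹
            · have ez : z.2 = (Y k)⁻¹ := hγ (by rw [map_inv, hU]; exact hzu)
              by_cases hx : (Y k)⁻¹ * x.2 = 1
              · exfalso
                apply hxu
                rw [← inv_mul_eq_one.1 hx]
                exact hU k
              · have hm : Red ((b, (Y k)⁻¹ * x.2) :: m) := by
                  refine ⟨?_, ?_⟩
                  · intro w hw
                    rcases List.mem_cons.1 hw with rfl | hw
                    · exact hx
                    · exact hl.1 w (by simp [hw])
                  · have := hl.2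
                    rw [← List.cons_append, List.isChain_append] at this
                    have h2 := this.1
                    rw [List.isChain_cons] at h2 ⊢
                    rw [hxb] at h2
                    exact h2
                have e := hconj ((b, (Y k)⁻¹ * x.2) :: m) (by
                  simp only [P_cons, P_append, P_nil, hxb, hzb, ez, mul_one, map_mul, map_inv]
                  group)
                have := ih ((b, (Y k)⁻¹ * x.2) :: m).length (by simp at hn ⊢; omega)
                  _ rfl hm (!b) (k + 1) e
                simp at this
            · have hr := hred ((U k)⁻¹ * γ x.2) (γ z.2 * U k) x.1 rfl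
                (by intro e; exact hxu (inv_mul_eq_one.1 e).symm)
                (by intro e; exact hzu (eq_inv_of_mul_eq_one_left e))
              have e : P ((x.1, (U k)⁻¹ * γ x.2) :: (gL γ m ++ [(z.1, γ z.2 * U k)])) =
                  P (hL η (x :: (m ++ [z]))) := by
                rw [hPl]
                simp only [P_cons, P_append, P_nil, hxb, hzb, mul_one, map_mul, mul_assoc]
              have := (key hr (alt_hL η hl) e).2 (by simp)
              simp [hL, hxb] at this
        · -- x.1 = b, z.1 ≠ b
          by_cases hxu : γ x.2 = U k
          · have e : P (gL γ m ++ [(z.1, γ z.2)] ++ [(b, U k)]) = P (hL η (x :: (m ++ [z]))) := by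
              rw [hPl]
              simp only [P_cons, P_append, P_nil, hxb, hxu, mul_one, mul_assoc, map_inv]
              simp
            have hr := hpost _ _ hlast hzb
            have e2 := (key hr (alt_hL η hl) e).2 (by simp)
            have e3 := chase γ η U Y hγ hU hS b (U k) (m ++ [z]) x k
              (by rw [← e2]; simp [gL]) hxu
            have := hinj e3
            omega
          · have hr := hred ((U k)⁻¹ * γ x.2) (γ z.2) x.1 rfl
                (by intro e; exact hxu (inv_mul_eq_one.1 e).symm) hz1
            have hr2 := hpost ((x.1, (U k)⁻¹ * γ x.2) :: gL γ m) _ (by simpa using hr) hzb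
            have e : P ((x.1, (U k)⁻¹ * γ x.2) :: gL γ m ++ [(z.1, γ z.2)] ++ [(b, U k)]) =
                P (hL η (x :: (m ++ [z]))) := by
              rw [hPl]
              simp only [P_cons, P_append, P_nil, hxb, mul_one, map_mul, mul_assoc]
            have := (key hr2 (alt_hL η hl) e).1
            simp at this
      · by_cases hzb : z.1 = b
        · by_cases hzu : γ z.2 = (U k)⁻¹
          · have e : P ((b, (U k)⁻¹) :: (x.1, γ x.2) :: gL γ m) =
                P (hL η (x :: (m ++ [z]))) := by
              rw [hPl]
              simp only [P_cons, P_append, P_nil, hzb, hzu, mul_one, mul_assoc, map_inv]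
              simp
            have hr : Red ((x.1, γ x.2) :: gL γ m) := by
              have := hred (γ x.2) (γ z.2) x.1 rfl hx1 hz1
              refine ⟨fun w hw => this.1 w ?_, ?_⟩
              · rcases List.mem_cons.1 hw with rfl | hw
                · simp
                · simp [hw]
              · have h2 := this.2
                rw [← List.cons_append, List.isChain_append] at h2
                exact h2.1
            have hr2 := hpre _ _ hr (fun e => hxb e.symm)
            have e2 := (key hr2 (alt_hL η hl) e).2 (by simp)
            have e3 := chase' γ η U Y hγ hU hS b ((U k)⁻¹) (x :: m) z k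
              (by rw [List.cons_append, ← e2]; simp [gL]) hzu
            have := hinj (inv_injective e3)
            omega
          · have hr := hred (γ x.2) (γ z.2 * U k) x.1 rfl hx1
                (by intro e; exact hzu (eq_inv_of_mul_eq_one_left e))
            have hr2 := hpre _ _ hr (fun e => hxb e.symm)
            have e : P ((b, (U k)⁻¹) :: (x.1, γ x.2) :: (gL γ m ++ [(z.1, γ z.2 * U k)])) =
                P (hL η (x :: (m ++ [z]))) := by
              rw [hPl]
              simp only [P_cons, P_append, P_nil, hzb, mul_one, map_mul, mul_assoc]
            have := (key hr2 (alt_hL η hl) e).1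
            simp at this
        · have hr := hred (γ x.2) (γ z.2) x.1 rfl hx1 hz1
          have hr2 := hpost ((x.1, γ x.2) :: gL γ m) _ (by simpa using hr) hzb
          have hr3 := hpre _ _ (by simpa using hr2) (fun e => hxb e.symm)
          have e : P ((b, (U k)⁻¹) :: (x.1, γ x.2) :: (gL γ m ++ [(z.1, γ z.2), (b, U k)])) =
              P (hL η (x :: (m ++ [z]))) := by
            rw [hPl]
            simp only [P_cons, P_append, P_nil, mul_one, mul_assoc]
          have := (key hr3 (alt_hL η hl) e).1
          simp at this

end conj

end twist

end Pool.Agent.Helper702.FreePCP
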