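import Mathlib

set_option autoImplicit false

/-! Equations in the free product of a group with an infinite cyclic group (an HNN extension with
trivial associated subgroups). -/

namespace Pool.Agent.Helper702.FreePCP

section top

variable {K : Type} [Group K]

/-- free product with an infinite cyclic group -/
abbrev HN (K : Type) [Group K] := HNNExtension K (⊥ : Subgroup K) ⊥ (MulEquiv.refl _)

/-- the value of a list -/
def V (a : K) (l : List (ℤˣ × K)) : HN K :=
  HNNExtension.of a * (l.map (fun x => HNNExtension.t ^ (x.1 : ℤ) * HNNExtension.of x.2)).prod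

/-- reduced lists -/
def RedT (l : List (ℤˣ × K)) : Prop := l.IsChain (fun x y => x.2 = 1 → x.1 = y.1)

/-- the reduced word of a list -/
def toRW (a : K) (l : List (ℤˣ × K)) (h : RedT l) :
    HNNExtension.NormalWord.ReducedWord K (⊥ : Subgroup K) ⊥ where
  head := a
  toList := l
  chain := by
    refine List.IsChain.imp ?_ h
    intro x y hxy hx
    apply hxy
    rcases Int.units_eq_one_or x.1 with hu | hu
    · rw [hu] at hx
      simpa using hx
    · rw [hu] at hx
      simpa using hx

theorem prod_toRW (a : K) (l : List (ℤˣ × K)) (h : RedT l) :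
    (toRW a l h).prod (MulEquiv.refl _) = V a l := rfl

theorem V_nil (a : K) : V a [] = HNNExtension.of a := by simp [V]

theorem V_cons (a : K) (x : ℤˣ × K) (l : List (ℤˣ × K)) :
    V a (x :: l) = HNNExtension.of a * (HNNExtension.t ^ (x.1 : ℤ) * V x.2 l) := by
  simp [V, mul_assoc]

theorem redT_tail {x : ℤˣ × K} {l : List (ℤˣ × K)} (h : RedT (x :: l)) : RedT l := h.tail

theorem V_inj (l : List (ℤˣ × K)) : ∀ (l' : List (ℤˣ × K)) (a a' : K), RedT l → RedT l' →
    V a l = V a' l' → a = a' ∧ l = l' := by
  induction l with
  | nil =>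
    intro l' a a' h h' e
    have := (HNNExtension.ReducedWord.map_fst_eq_and_of_prod_eq (MulEquiv.refl _)
      (w₁ := toRW a [] h) (w₂ := toRW a' l' h') e).1
    have hl : l' = [] := by
      simpa [toRW] using this.symm
    subst hl
    rw [V_nil, V_nil] at e
    exact ⟨HNNExtension.of_injective _ e, rfl⟩
  | cons x l ih =>
    intro l' a a' h h' e
    have := HNNExtension.ReducedWord.map_fst_eq_and_of_prod_eq (MulEquiv.refl _)
      (w₁ := toRW a (x :: l) h) (w₂ := toRW a' l' h') e
    rcases l' with _ | ⟨y, l'⟩
    · simp [toRW] at this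
    · have h1 : x.1 = y.1 := by
        have := this.1
        simp only [toRW, List.map_cons, List.cons.injEq] at this
        exact this.1
      have h2 : a = a' := by
        have h3 := this.2 x.1 (by simp [toRW])
        have h4 : a⁻¹ * a' ∈ HNNExtension.toSubgroup (⊥ : Subgroup K) ⊥ (-x.1) := h3
        have h5 : a⁻¹ * a' = 1 := by
          rcases Int.units_eq_one_or x.1 with hu | hu
          · rw [hu] at h4
            simpa using h4
          · rw [hu] at h4
            simpa using h4
        exact inv_mul_eq_one.1 h5
      subst h2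
      rw [V_cons, V_cons, h1] at e
      have e2 := mul_left_cancel (mul_left_cancel e)
      obtain ⟨h6, h7⟩ := ih l' x.2 y.2 (redT_tail h) (redT_tail h') e2
      refine ⟨rfl, ?_⟩
      rw [h7]
      congr 1
      exact Prod.ext h1 h6

theorem reduceT (l : List (ℤˣ × K)) : ∀ (a : K), ∃ (a' : K) (l' : List (ℤˣ × K)), RedT l' ∧
    V a' l' = V a l ∧ l'.length ≤ l.length ∧ (l'.length = l.length → RedT l) := by
  classical
  induction l with
  | nil => intro a; exact ⟨a, [], List.isChain_nil, rfl, le_refl _, fun _ => List.isChain_nil⟩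
  | cons x l ih =>
    intro a
    obtain ⟨g, r, hr, hV, hlen, heq⟩ := ih x.2
    rcases r with _ | ⟨y, r⟩
    · refine ⟨a, [(x.1, g)], by simp [RedT], ?_, by simp, ?_⟩
      · rw [V_cons, V_cons, hV]
      · intro h
        simp only [List.length_cons, List.length_nil] at h
        have hl : l = [] := List.length_eq_zero_iff.1 (by omega)
        subst hl
        simp [RedT]
    · by_cases hc : g = 1 → x.1 = y.1
      · refine ⟨a, (x.1, g) :: y :: r, List.IsChain.cons_cons hc hr, ?_, ?_, ?_⟩
        · rw [V_cons, V_cons a x l, hV]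
        · simp only [List.length_cons] at *; omega
        · intro h
          have h1 : (y :: r).length = l.length := by
            simp only [List.length_cons] at *
            omega
          obtain ⟨h2, h3⟩ := V_inj _ _ _ _ hr (heq h1) hV
          rw [← h3]
          refine List.IsChain.cons_cons ?_ hr
          rw [← h2]
          exact hc
      · have hg : g = 1 := by
          by_contra hg
          exact hc (fun h => absurd h hg)
        have hxy : x.1 ≠ y.1 := fun h => hc (fun _ => h)
        have hn : x.1 = -y.1 := by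
          rcases Int.units_eq_one_or x.1 with h1 | h1 <;>
            rcases Int.units_eq_one_or y.1 with h2 | h2 <;> simp [h1, h2] at hxy ⊢
        refine ⟨a * y.2, r, redT_tail hr, ?_, ?_, ?_⟩
        · rw [V_cons a x l, ← hV, V_cons, hg, hn]
          simp [V, mul_assoc]
        · simp only [List.length_cons] at *; omega
        · intro h
          simp only [List.length_cons] at *
          omega

theorem existsT (w : HN K) : ∃ (a : K) (l : List (ℤˣ × K)), RedT l ∧ V a l = w := by
  have key : ∀ w : HN K, ∃ (a : K) (l : List (ℤˣ × K)), V a l = w := by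
    intro w
    have hmul : ∀ (l : List (ℤˣ × K)) (a b : K) (l' : List (ℤˣ × K)), ∃ (c : K)
        (m : List (ℤˣ × K)), V c m = V a l * V b l' := by
      intro l
      induction l with
      | nil =>
        intro a b l'
        exact ⟨a * b, l', by simp [V, mul_assoc]⟩
      | cons x l ih =>
        intro a b l'
        obtain ⟨c, m, e⟩ := ih x.2 b l'
        refine ⟨a, (x.1, c) :: m, ?_⟩
        rw [V_cons, V_cons, e]
        simp only [mul_assoc]
    have hinv : ∀ (l : List (ℤˣ × K)) (a : K), ∃ (c : K)
        (m : List (ℤˣ × K)), V c m = (V a l)⁻¹ := by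
      intro l
      induction l with
      | nil =>
        intro a
        exact ⟨a⁻¹, [], by simp [V]⟩
      | cons x l ih =>
        intro a
        obtain ⟨c, m, e⟩ := ih x.2
        obtain ⟨c', m', e'⟩ := hmul m c 1 [(-x.1, a⁻¹)]
        refine ⟨c', m', ?_⟩
        rw [e', e, V_cons]
        simp [V, mul_assoc]
    induction w using HNNExtension.induction_on with
    | of g => exact ⟨g, [], V_nil g⟩
    | t => exact ⟨1, [(1, 1)], by simp [V]⟩
    | mul x y hx hy =>
      obtain ⟨a, l, rfl⟩ := hx
      obtain ⟨b, l', rfl⟩ := hy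
      exact hmul l a b l'
    | inv x hx =>
      obtain ⟨a, l, rfl⟩ := hx
      exact hinv l a
  obtain ⟨a, l, rfl⟩ := key w
  obtain ⟨a', l', h, e, -, -⟩ := reduceT l a
  exact ⟨a', l', h, e⟩

theorem keyT {a a' : K} {l l' : List (ℤˣ × K)} (h : RedT l) (e : V a l = V a' l')
    (hlen : l.length = l'.length) : a = a' ∧ l = l' := by
  obtain ⟨b, r, hr, hV, h1, h2⟩ := reduceT l' a'
  obtain ⟨h3, h4⟩ := V_inj _ _ _ _ h hr (e.trans hV.symm)
  subst h4
  exact V_inj _ _ _ _ h (h2 hlen) e

end top

section homs

variable {K G : Type} [Group K] [Group G] (p q : K →* G) (e : G)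

/-- the first homomorphism -/
def gs : HN K →* HN G :=
  HNNExtension.lift (HNNExtension.of.comp p) HNNExtension.t (by
    rintro ⟨a, ha⟩
    rw [Subgroup.mem_bot] at ha
    subst ha
    simp)

/-- the second homomorphism -/
def hs : HN K →* HN G :=
  HNNExtension.lift (HNNExtension.of.comp q) (HNNExtension.t * HNNExtension.of e) (by
    rintro ⟨a, ha⟩
    rw [Subgroup.mem_bot] at ha
    subst ha
    simp)

@[simp] theorem gs_of (x : K) : gs p (HNNExtension.of x) = HNNExtension.of (p x) := by
  simp [gs]

@[simp] theorem gs_t : gs p HNNExtension.t = HNNExtension.t := by simp [gs]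

@[simp] theorem hs_of (x : K) : hs q e (HNNExtension.of x) = HNNExtension.of (q x) := by
  simp [hs]

@[simp] theorem hs_t : hs q e HNNExtension.t = HNNExtension.t * HNNExtension.of e := by simp [hs]

theorem gs_V (l : List (ℤˣ × K)) : ∀ a : K, gs p (V a l) = V (p a) (l.map fun x => (x.1, p x.2)) := by
  induction l with
  | nil => intro a; simp [V]
  | cons x l ih => intro a; simp [V_cons, ih]

/-- correction at the end -/
def post : List (ℤˣ × K) → G
  | [] => 1
  | x :: _ => if x.1 = 1 then 1 else e⁻¹

/-- the word of the second homomorphism -/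
def tr : List (ℤˣ × K) → List (ℤˣ × G)
  | [] => []
  | x :: l => (x.1, (if x.1 = 1 then e else 1) * q x.2 * post e l) :: tr l

theorem hs_V (l : List (ℤˣ × K)) : ∀ a : K, hs q e (V a l) = V (q a * post e l) (tr q e l) := by
  induction l with
  | nil => intro a; simp [V, post, tr]
  | cons x l ih =>
    intro a
    rw [V_cons, tr, V_cons]
    simp only [map_mul, map_zpow, hs_of, hs_t, ih, post]
    rcases Int.units_eq_one_or x.1 with h | h
    · simp [h, V, mul_assoc]
    · simp [h, V, mul_assoc]

theorem length_tr (l : List (ℤˣ × K)) : (tr q e l).length = l.length := by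
  induction l with
  | nil => rfl
  | cons x l ih => simp [tr, ih]

theorem chain_false (A2 : ∀ f, p f ≠ e * q f)
    (A3 : ∀ f, p f = e * q f * e⁻¹ → f = 1) (l : List (ℤˣ × K)) : ∀ f : K,
    RedT ((1, f) :: l) → (((1 : ℤˣ), f) :: l).map (fun x => (x.1, p x.2)) =
      tr q e ((1, f) :: l) → False := by
  induction l with
  | nil =>
    intro f h h2
    simp [tr, post] at h2
    exact A2 f h2
  | cons y l ih =>
    intro f h h2
    simp only [List.map_cons, tr, post, List.cons.injEq, Prod.mk.injEq, true_and] at h2
    rcases Int.units_eq_one_or y.1 with hy | hy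
    · obtain ⟨y1, y2⟩ := y
      simp only at hy
      subst hy
      refine ih y2 (redT_tail h) ?_
      simp only [List.map_cons, tr, List.cons.injEq, Prod.mk.injEq, true_and]
      exact h2.2
    · have h3 := h2.1
      simp only [hy, if_true] at h3
      have h4 : (-1 : ℤˣ) ≠ 1 := by decide
      rw [if_neg h4] at h3
      have h5 := A3 f h3
      have h6 := List.isChain_cons_cons.1 h
      have h7 := h6.1 h5
      rw [hy] at h7
      exact h4 h7.symm

theorem no_top (hp : Function.Injective p) (A1 : ∀ f, p f = q f → f = 1)
    (A2 : ∀ f, p f ≠ e * q f) (A3 : ∀ f, p f = e * q f * e⁻¹ → f = 1) (w : HN K)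
    (h : gs p w = hs q e w) : w = 1 := by
  obtain ⟨a, l, hl, rfl⟩ := existsT w
  rw [gs_V, hs_V] at h
  have hr : RedT (l.map fun x => (x.1, p x.2)) := by
    unfold RedT
    rw [List.isChain_map]
    refine List.IsChain.imp ?_ hl
    intro x y hxy h1
    apply hxy
    apply hp
    rw [map_one]
    exact h1
  obtain ⟨h1, h2⟩ := keyT hr h (by simp [length_tr])
  rcases l with _ | ⟨x, l⟩
  · simp only [post, mul_one] at h1
    rw [A1 a h1, V_nil, map_one]
  · exfalso
    rcases Int.units_eq_one_or x.1 with hx | hx
    · obtain ⟨x1, x2⟩ := x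
      simp only at hx
      subst hx
      exact chain_false p q e A2 A3 l x2 hl h2
    · simp only [post, hx] at h1
      have h4 : (-1 : ℤˣ) ≠ 1 := by decide
      rw [if_neg h4] at h1
      apply A2 a⁻¹
      rw [map_inv, map_inv, h1]
      group

/-- the exponent sum of the stable letter -/
def tsum : HN K →* Multiplicative ℤ :=
  HNNExtension.lift 1 (Multiplicative.ofAdd 1) (by
    rintro ⟨a, ha⟩
    rw [Subgroup.mem_bot] at ha
    subst ha
    simp)

theorem top_of (z : K) (hz : p z = e * q z) :
    HNNExtension.t * HNNExtension.of z ≠ (1 : HN K) ∧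
      gs p (HNNExtension.t * HNNExtension.of z) = hs q e (HNNExtension.t * HNNExtension.of z) := by
  constructor
  · intro h
    have := congrArg tsum h
    simp [tsum] at this
  · simp [hz, mul_assoc]

end homs

end Pool.Agent.Helper702.FreePCP
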