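import Mathlib
import Pool.Agent.Helper702.FreePCP.Swap
import Pool.Agent.Helper702.FreePCP.Top

set_option autoImplicit false

/-! The equaliser of the two homomorphisms attached to a partial homomorphism and an element. -/

namespace Pool.Agent.Helper702.FreePCP

variable {F H : Type} [Group F] [Group H] (γ η : H →* F)

theorem gh_injective (hγ : Function.Injective γ) : Function.Injective (gh γ) := by
  rw [injective_iff_map_eq_one]
  intro f hf
  obtain ⟨l, hl, rfl⟩ := exists_red f
  rw [gh_P] at hf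
  have : gL γ l = [] := P_inj (red_gL γ hγ hl) red_nil (by rw [hf, P_nil])
  have : l = [] := by simpa [gL] using this
  subst this
  rfl

theorem dies_solution (u : F) (h : Dies γ η u) : ∀ b : Bool, ∃ z : G2 H,
    gh γ z = inc b u * hh η z := by
  induction h with
  | one => intro b; exact ⟨1, by simp⟩
  | step y _ ih =>
    intro b
    obtain ⟨z, hz⟩ := ih (!b)
    refine ⟨inc b y * z, ?_⟩
    rw [map_mul, map_mul, gh_inc, hh_inc, hz]

/-- The equaliser of the two homomorphisms is nontrivial exactly when the orbit dies. -/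
theorem equal_iff (hγ : Function.Injective γ) (u₀ : F)
    (hND : ¬ Dies γ η u₀ → ∃ (U : ℕ → F) (Y : ℕ → H), U 0 = u₀ ∧ (∀ k, γ (Y k) = U k) ∧
      (∀ k, η (Y k) = U (k + 1)) ∧ Function.Injective U ∧ ∀ k, U k ≠ 1) :
    (∃ w : HN (G2 H), w ≠ 1 ∧ gs (gh γ) w = hs (hh η) (inc false u₀) w) ↔ Dies γ η u₀ := by
  constructor
  · rintro ⟨w, hw, h⟩
    by_contra hd
    obtain ⟨U, Y, h0, h1, h2, h3, h4⟩ := hND hd
    apply hw
    refine no_top (gh γ) (hh η) (inc false u₀) (gh_injective γ hγ)
      (fun f hf => no_fixed γ η hγ f hf)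
      (fun f => no_start γ η hγ false u₀ hd f) ?_ w h
    intro f hf
    obtain ⟨l, hl, rfl⟩ := exists_red f
    rw [gh_P, hh_P, ← h0] at hf
    have := conj_eq γ η U Y hγ h1 h2 h3 h4 _ l rfl hl false 0 hf
    rw [this]
    rfl
  · intro h
    obtain ⟨z, hz⟩ := dies_solution γ η u₀ h false
    obtain ⟨h1, h2⟩ := top_of (gh γ) (hh η) (inc false u₀) z hz
    exact ⟨_, h1, h2⟩

end Pool.Agent.Helper702.FreePCP
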