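import Mathlib

set_option autoImplicit false

/-! Automata over a free group: letters act on a set of states with an output in the group. -/

namespace Pool.Agent.Helper702.FreePCP

section cocycle

variable {X W : Type} (π : X → Equiv.Perm W) (o : X → W → FreeGroup X)

/-- the permutation of pairs given by a permutation of the states and an output -/
def cperm (p : Equiv.Perm W) (r : W → FreeGroup X) : Equiv.Perm (W × FreeGroup X) where
  toFun z := (p z.1, r z.1 * z.2)
  invFun z := (p.symm z.1, (r (p.symm z.1))⁻¹ * z.2)
  left_inv z := by simp
  right_inv z := by simp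

/-- the action on pairs -/
def Phi : FreeGroup X →* Equiv.Perm (W × FreeGroup X) :=
  FreeGroup.lift fun x => cperm (π x) (o x)

/-- the action on states -/
def act (f : FreeGroup X) (s : W) : W := (Phi π o f (s, 1)).1

/-- the output -/
def out (f : FreeGroup X) (s : W) : FreeGroup X := (Phi π o f (s, 1)).2

theorem Phi_apply (f : FreeGroup X) : ∀ (s : W) (y : FreeGroup X),
    Phi π o f (s, y) = (act π o f s, out π o f s * y) := by
  induction f using FreeGroup.induction_on with
  | C1 => intro s y; simp [act, out]
  | of x => intro s y; simp [act, out, Phi, cperm]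
  | inv_of x _ =>
    intro s y
    simp [act, out, Phi, cperm, Equiv.Perm.inv_def]
  | mul f g hf hg =>
    intro s y
    have h1 : ∀ z, Phi π o (f * g) z = Phi π o f (Phi π o g z) := by
      intro z; rw [map_mul]; rfl
    have h2 : act π o (f * g) s = act π o f (act π o g s) := by
      rw [act, h1, hg, hf]
    have h3 : out π o (f * g) s = out π o f (act π o g s) * out π o g s := by
      rw [out, h1, hg, hf, mul_one]
    rw [h1, hg, hf, h2, h3, mul_assoc]

theorem Phi_mul_apply (f g : FreeGroup X) (z : W × FreeGroup X) :
    Phi π o (f * g) z = Phi π o f (Phi π o g z) := by rw [map_mul]; rfl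

theorem act_mul (f g : FreeGroup X) (s : W) : act π o (f * g) s = act π o f (act π o g s) := by
  rw [act, Phi_mul_apply, Phi_apply, Phi_apply]

theorem out_mul (f g : FreeGroup X) (s : W) :
    out π o (f * g) s = out π o f (act π o g s) * out π o g s := by
  rw [out, Phi_mul_apply, Phi_apply, Phi_apply, mul_one]

@[simp] theorem act_one (s : W) : act π o 1 s = s := by simp [act]

@[simp] theorem out_one (s : W) : out π o 1 s = 1 := by simp [out]

theorem act_of (x : X) (s : W) : act π o (FreeGroup.of x) s = π x s := by
  simp [act, Phi, cperm]

theorem out_of (x : X) (s : W) : out π o (FreeGroup.of x) s = o x s := by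
  simp [out, Phi, cperm]

theorem act_inv (f : FreeGroup X) (s : W) : act π o f⁻¹ (act π o f s) = s := by
  rw [← act_mul, inv_mul_cancel, act_one]

theorem out_inv (f : FreeGroup X) (s : W) : out π o f⁻¹ (act π o f s) = (out π o f s)⁻¹ := by
  have := out_mul π o f⁻¹ f s
  rw [inv_mul_cancel, out_one] at this
  exact eq_inv_of_mul_eq_one_left this.symm

theorem act_pow_fix {f : FreeGroup X} {s : W} (h : act π o f s = s) (n : ℕ) :
    act π o (f ^ n) s = s := by
  induction n with
  | zero => simp
  | succ n ih => rw [pow_succ', act_mul, ih, h]

theorem out_pow_fix {f : FreeGroup X} {s : W} (h : act π o f s = s) (n : ℕ) :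
    out π o (f ^ n) s = out π o f s ^ n := by
  induction n with
  | zero => simp
  | succ n ih => rw [pow_succ', out_mul, act_pow_fix π o h, ih, pow_succ']

/-- the action as a homomorphism -/
def actHom : FreeGroup X →* Equiv.Perm W where
  toFun f :=
    { toFun := act π o f
      invFun := act π o f⁻¹
      left_inv := act_inv π o f
      right_inv := fun s => by
        have := act_inv π o f⁻¹ s
        rwa [inv_inv] at this }
  map_one' := by ext s; simp
  map_mul' f g := by
    ext s
    exact act_mul π o f g s

@[simp] theorem actHom_apply (f : FreeGroup X) (s : W) : actHom π o f s = act π o f s := rfl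

/-- the stabiliser of a state -/
def stab (s : W) : Subgroup (FreeGroup X) :=
  (MulAction.stabilizer (Equiv.Perm W) s).comap (actHom π o)

theorem mem_stab {s : W} {f : FreeGroup X} : f ∈ stab π o s ↔ act π o f s = s := by
  rw [stab, Subgroup.mem_comap, MulAction.mem_stabilizer_iff]
  rfl

/-- the output on the stabiliser is a homomorphism -/
def psi (s : W) : stab π o s →* FreeGroup X where
  toFun f := out π o f s
  map_one' := by simp
  map_mul' f g := by
    have hg := (mem_stab π o).1 g.2
    simp only [Subgroup.coe_mul, out_mul, hg]

instance stab_finiteIndex [Finite W] (s : W) : (stab π o s).FiniteIndex := by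
  have h1 : (actHom π o).ker.FiniteIndex := inferInstance
  refine Subgroup.finiteIndex_of_le (H := (actHom π o).ker) ?_
  intro f hf
  rw [mem_stab, ← actHom_apply, (MonoidHom.mem_ker).1 hf]
  rfl

theorem stab_fg [Finite X] [Finite W] (s : W) : Group.FG (stab π o s) := by
  have : Group.FG (FreeGroup X) := inferInstance
  exact Subgroup.fg_of_index_ne_zero (stab π o s)

end cocycle

end Pool.Agent.Helper702.FreePCP
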