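import Mathlib
import Pool.Agent.Helper702.FreePCP.BM
import Pool.Agent.Helper702.FreePCP.Cocycle

set_option autoImplicit false

/-! The automaton over a free group which simulates a swap machine. -/

namespace Pool.Agent.Helper702.FreePCP

/-- the letters -/
inductive X (Q : Type) where
  | aD (q : Q)
  | aF (q : Q)
  | aN
  | bN
  | bF
  | bD
  | hd (t : Bool) (q : Q)

instance {Q : Type} [Finite Q] : Finite (X Q) := by
  refine Finite.of_injective (β := Q ⊕ Q ⊕ Fin 4 ⊕ (Bool × Q)) (fun x => match x with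
    | .aD q => .inl q
    | .aF q => .inr (.inl q)
    | .aN => .inr (.inr (.inl 0))
    | .bN => .inr (.inr (.inl 1))
    | .bF => .inr (.inr (.inl 2))
    | .bD => .inr (.inr (.inl 3))
    | .hd t q => .inr (.inr (.inr (t, q)))) ?_
  intro a b h
  cases a <;> cases b <;> simp_all

/-- the states -/
abbrev W (B : ℕ) := Fin (2 ^ B) ⊕ Bool

/-- the base state -/
def base (B : ℕ) : W B := .inl 0

section defs

variable {Q : Type} (M : BM Q)

/-- the generators -/
abbrev gen (x : X Q) : FreeGroup (X Q) := FreeGroup.of x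

/-- the rule of the head letters -/
def rule : Bool × Q → W M.B → Option (FreeGroup (X Q) × (Bool × Q))
  | (false, q), .inl m => if m = 0 then some (1, (false, q)) else
      (M.nxt q (Nat.log 2 m)).map fun q' =>
        (gen (.aF q) ^ (2 ^ (M.g + M.c q - 1 - M.d q (Nat.log 2 m))), (true, q'))
  | (false, _), .inr _ => none
  | (true, q), .inl m => if m = 0 then some (1, (true, q)) else none
  | (true, q), .inr false => some (gen .aN, (true, q))
  | (true, q), .inr true => some (gen (.aD q) ^ (2 ^ M.g), (false, q))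

/-- the output of a rule -/
def hout (r : Option (FreeGroup (X Q) × (Bool × Q))) : FreeGroup (X Q) :=
  match r with
  | none => 1
  | some (y, h) => y⁻¹ * gen (.hd h.1 h.2) ^ 2 * y

/-- the permutations -/
def pi : X Q → Equiv.Perm (W M.B)
  | .bN => Equiv.sumCongr (Equiv.addRight 1) (Equiv.refl _)
  | .bF => Equiv.swap (base M.B) (.inr false)
  | .bD => Equiv.swap (base M.B) (.inr true)
  | _ => 1

/-- the outputs -/
def ou : X Q → W M.B → FreeGroup (X Q)
  | .aD q, s => if s = .inr true then gen .bD else gen (.aD q) ^ (2 ^ M.c q)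
  | .aF q, s => if s = .inr true then gen .bF else gen (.aF q) ^ (2 ^ M.c q)
  | .aN, s => if s = .inr true then gen .bN else gen .aN ^ 2
  | .bN, s => if s = .inl (-1) then gen .bN else 1
  | .bF, s => if s = .inr false then gen .bF else 1
  | .bD, s => if s = .inr true then gen .bD else 1
  | .hd t q, s => hout (rule M (t, q) s)

/-- action of a word -/
abbrev ac (f : FreeGroup (X Q)) (s : W M.B) : W M.B := act (pi M) (ou M) f s

/-- output of a word -/
abbrev ot (f : FreeGroup (X Q)) (s : W M.B) : FreeGroup (X Q) := out (pi M) (ou M) f s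

/-- the elements of the orbit -/
def U (x : FreeGroup (X Q) × (Bool × Q)) (K : ℕ) : FreeGroup (X Q) :=
  x.1⁻¹ * gen (.hd x.2.1 x.2.2) ^ K * x.1

/-- the element after a pass -/
def Un (z : Option (FreeGroup (X Q) × (Bool × Q))) (K : ℕ) : FreeGroup (X Q) :=
  match z with
  | none => 1
  | some z => U z (2 * K)

/-- one pass -/
def S (x : FreeGroup (X Q) × (Bool × Q)) : Option (FreeGroup (X Q) × (Bool × Q)) :=
  (rule M x.2 (ac M x.1 (base M.B))).map fun z => (z.1 * ot M x.1 (base M.B), z.2)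

theorem ac_hd (t : Bool) (q : Q) (s : W M.B) : ac M (gen (.hd t q)) s = s := by
  rw [ac, gen, act_of]
  rfl

theorem ot_hd (t : Bool) (q : Q) (s : W M.B) :
    ot M (gen (.hd t q)) s = hout (rule M (t, q) s) := by
  rw [ot, gen, out_of]
  rfl

theorem ac_U (x : FreeGroup (X Q) × (Bool × Q)) (K : ℕ) :
    ac M (U x K) (base M.B) = base M.B := by
  rw [U, ac, act_mul, act_mul, act_pow_fix _ _ (ac_hd M _ _ _), act_inv]

theorem ot_U (x : FreeGroup (X Q) × (Bool × Q)) (K : ℕ) :
    ot M (U x K) (base M.B) = Un (S M x) K := by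
  have h1 : ot M (U x K) (base M.B) = (ot M x.1 (base M.B))⁻¹ *
      (hout (rule M x.2 (ac M x.1 (base M.B)))) ^ K * ot M x.1 (base M.B) := by
    rw [U, ot, out_mul, out_mul, out_pow_fix _ _ (ac_hd M _ _ _),
      act_pow_fix _ _ (ac_hd M _ _ _), out_inv, ← ot_hd]
  rw [h1]
  cases h : rule M x.2 (ac M x.1 (base M.B)) with
  | none => simp [S, h, hout, Un]
  | some z =>
    obtain ⟨y, h'⟩ := z
    simp only [S, h, Option.map_some, hout, U, Un]
    have : (y⁻¹ * gen (.hd h'.1 h'.2) ^ 2 * y) ^ K =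
        y⁻¹ * gen (.hd h'.1 h'.2) ^ (2 * K) * y := by
      rw [pow_mul]
      have := conj_pow (i := K) (a := y⁻¹) (b := gen (.hd h'.1 h'.2) ^ 2)
      rw [inv_inv] at this
      exact this
    rw [this]
    group

end defs

/-- the exponent sum of the head letters -/
def hsum {Q : Type} : FreeGroup (X Q) →* Multiplicative ℤ :=
  FreeGroup.lift fun x => match x with
    | .hd _ _ => Multiplicative.ofAdd 1
    | _ => 1

theorem hsum_U {Q : Type} (x : FreeGroup (X Q) × (Bool × Q)) (K : ℕ) :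
    hsum (U x K) = Multiplicative.ofAdd (K : ℤ) := by
  rw [U]
  simp only [map_mul, map_inv, map_pow, gen]
  rw [mul_comm, ← mul_assoc, mul_inv_cancel, one_mul]
  simp only [hsum, FreeGroup.lift_apply_of]
  rw [← ofAdd_nsmul]
  simp

section passes

variable {Q : Type} (M : BM Q)

theorem ac_aD (q : Q) (s : W M.B) : ac M (gen (.aD q)) s = s := by rw [ac, gen, act_of]; rfl

theorem ac_aF (q : Q) (s : W M.B) : ac M (gen (.aF q)) s = s := by rw [ac, gen, act_of]; rfl

theorem ac_aN (s : W M.B) : ac M (gen .aN) s = s := by rw [ac, gen, act_of]; rfl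

theorem ac_aDp (q : Q) (n : ℕ) (s : W M.B) : ac M (gen (.aD q) ^ n) s = s :=
  act_pow_fix _ _ (ac_aD M q s) n

theorem ac_aFp (q : Q) (n : ℕ) (s : W M.B) : ac M (gen (.aF q) ^ n) s = s :=
  act_pow_fix _ _ (ac_aF M q s) n

theorem ac_aNp (n : ℕ) (s : W M.B) : ac M (gen .aN ^ n) s = s :=
  act_pow_fix _ _ (ac_aN M s) n

theorem ot_aDp (q : Q) (n : ℕ) (s : W M.B) (hs : s ≠ .inr true) :
    ot M (gen (.aD q) ^ n) s = gen (.aD q) ^ (2 ^ M.c q * n) := by
  rw [ot, out_pow_fix _ _ (ac_aD M q s), gen, out_of, ou, if_neg hs, pow_mul]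

theorem ot_aFp (q : Q) (n : ℕ) (s : W M.B) (hs : s ≠ .inr true) :
    ot M (gen (.aF q) ^ n) s = gen (.aF q) ^ (2 ^ M.c q * n) := by
  rw [ot, out_pow_fix _ _ (ac_aF M q s), gen, out_of, ou, if_neg hs, pow_mul]

theorem ot_aNp (n : ℕ) (s : W M.B) (hs : s ≠ .inr true) :
    ot M (gen .aN ^ n) s = gen .aN ^ (2 * n) := by
  rw [ot, out_pow_fix _ _ (ac_aN M s), gen, out_of, ou, if_neg hs, pow_mul]

theorem ot_aDd (q : Q) (n : ℕ) : ot M (gen (.aD q) ^ n) (.inr true) = gen .bD ^ n := by
  rw [ot, out_pow_fix _ _ (ac_aD M q _), gen, out_of, ou, if_pos rfl]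

theorem ot_aFd (q : Q) (n : ℕ) : ot M (gen (.aF q) ^ n) (.inr true) = gen .bF ^ n := by
  rw [ot, out_pow_fix _ _ (ac_aF M q _), gen, out_of, ou, if_pos rfl]

theorem ot_aNd (n : ℕ) : ot M (gen .aN ^ n) (.inr true) = gen .bN ^ n := by
  rw [ot, out_pow_fix _ _ (ac_aN M _), gen, out_of, ou, if_pos rfl]

theorem base_ne : base M.B ≠ .inr true := by simp [base]

theorem two_swap (x : X Q) (t : Bool) (hx : pi M x = Equiv.swap (base M.B) (.inr t))
    (ho : ∀ s, ou M x s = if s = .inr t then gen x else 1) (n : ℕ) :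
    ac M (gen x ^ (2 ^ (n + 1))) (base M.B) = base M.B ∧
      ot M (gen x ^ (2 ^ (n + 1))) (base M.B) = gen x ^ (2 ^ n) := by
  have h1 : ac M (gen x) (base M.B) = .inr t := by
    rw [ac, gen, act_of, hx, Equiv.swap_apply_left]
  have h2 : ac M (gen x ^ 2) (base M.B) = base M.B := by
    rw [pow_two, ac, act_mul]
    change ac M (gen x) (ac M (gen x) (base M.B)) = base M.B
    rw [h1, ac, gen, act_of, hx, Equiv.swap_apply_right]
  have h3 : ot M (gen x ^ 2) (base M.B) = gen x := by
    rw [pow_two, ot, out_mul]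
    change ot M (gen x) (ac M (gen x) (base M.B)) * ot M (gen x) (base M.B) = gen x
    rw [h1, ot, ot, gen, out_of, out_of, ho, ho, if_pos rfl, if_neg (by simp [base]), mul_one]
  constructor
  · rw [pow_succ', pow_mul]
    exact act_pow_fix _ _ h2 _
  · rw [pow_succ', pow_mul, ot, out_pow_fix _ _ h2]
    change (ot M (gen x ^ 2) (base M.B)) ^ _ = _
    rw [h3]

theorem ac_bF (n : ℕ) : ac M (gen .bF ^ (2 ^ (n + 1))) (base M.B) = base M.B :=
  (two_swap M .bF false rfl (fun _ => rfl) n).1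

theorem ot_bF (n : ℕ) : ot M (gen .bF ^ (2 ^ (n + 1))) (base M.B) = gen .bF ^ (2 ^ n) :=
  (two_swap M .bF false rfl (fun _ => rfl) n).2

theorem ac_bD (n : ℕ) : ac M (gen .bD ^ (2 ^ (n + 1))) (base M.B) = base M.B :=
  (two_swap M .bD true rfl (fun _ => rfl) n).1

theorem ot_bD (n : ℕ) : ot M (gen .bD ^ (2 ^ (n + 1))) (base M.B) = gen .bD ^ (2 ^ n) :=
  (two_swap M .bD true rfl (fun _ => rfl) n).2

theorem ac_bF0 : ac M (gen .bF ^ (2 ^ 0)) (base M.B) = .inr false := by
  rw [pow_zero, pow_one, ac, gen, act_of]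
  exact Equiv.swap_apply_left _ _

theorem ot_bF0 : ot M (gen .bF ^ (2 ^ 0)) (base M.B) = 1 := by
  rw [pow_zero, pow_one, ot, gen, out_of]
  simp [ou, base]

theorem ac_bD0 : ac M (gen .bD ^ (2 ^ 0)) (base M.B) = .inr true := by
  rw [pow_zero, pow_one, ac, gen, act_of]
  exact Equiv.swap_apply_left _ _

theorem ot_bD0 : ot M (gen .bD ^ (2 ^ 0)) (base M.B) = 1 := by
  rw [pow_zero, pow_one, ot, gen, out_of]
  simp [ou, base]

theorem bN_pow (n : ℕ) : ac M (gen .bN ^ n) (base M.B) =
      .inl ⟨n % 2 ^ M.B, Nat.mod_lt _ (by positivity)⟩ ∧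
    ot M (gen .bN ^ n) (base M.B) = gen .bN ^ (n / 2 ^ M.B) := by
  have hpos : 0 < 2 ^ M.B := by positivity
  induction n with
  | zero =>
    constructor
    · simp only [pow_zero, ac, act_one, base, Nat.zero_mod]
      congr 1
    · simp
  | succ n ih =>
    have e1 : ac M (gen .bN ^ (n + 1)) (base M.B) =
        ac M (gen .bN) (ac M (gen .bN ^ n) (base M.B)) := by
      rw [pow_succ', ac, act_mul]
    have e2 : ot M (gen .bN ^ (n + 1)) (base M.B) =
        ot M (gen .bN) (ac M (gen .bN ^ n) (base M.B)) * ot M (gen .bN ^ n) (base M.B) := by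
      rw [pow_succ', ot, out_mul]
    rw [e1, e2, ih.1, ih.2]
    constructor
    · rw [ac, gen, act_of]
      change (Sum.inl _ : W M.B) = _
      congr 1
      apply Fin.ext
      simp [Fin.val_add, Nat.add_mod]
    · rw [ot, gen, out_of, ou]
      by_cases h : n % 2 ^ M.B = 2 ^ M.B - 1
      · rw [if_pos, ← pow_succ']
        · congr 1
          have := Nat.div_add_mod n (2 ^ M.B)
          have h2 : n + 1 = 2 ^ M.B * (n / 2 ^ M.B + 1) := by
            rw [Nat.mul_add]
            omega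
          rw [h2, Nat.mul_div_cancel_left _ hpos]
        · congr 1
          apply Fin.ext
          rw [Fin.neg_def]
          simp only
          have hB : 1 < 2 ^ M.B := Nat.one_lt_two_pow (by have := M.hB; omega)
          have h1 : ((1 : Fin (2 ^ M.B)) : ℕ) = 1 := by
            exact Nat.mod_eq_of_lt hB
          rw [h1, h, Nat.mod_eq_of_lt (by omega)]
      · rw [if_neg, one_mul]
        · congr 1
          have := Nat.div_add_mod n (2 ^ M.B)
          have hlt := Nat.mod_lt n hpos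
          have h2 : n + 1 = 2 ^ M.B * (n / 2 ^ M.B) + (n % 2 ^ M.B + 1) := by omega
          have h3 : (n % 2 ^ M.B + 1) / 2 ^ M.B = 0 := Nat.div_eq_of_lt (by omega)
          rw [h2, Nat.mul_add_div hpos, h3, add_zero]
        · intro h'
          apply h
          have h3 := congrArg (fun z : W M.B => match z with
            | .inl m => (m : ℕ)
            | .inr _ => 0) h'
          simp only at h3
          rw [h3, Fin.neg_def]
          simp only
          have hB : 1 < 2 ^ M.B := Nat.one_lt_two_pow (by have := M.hB; omega)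
          have h1 : ((1 : Fin (2 ^ M.B)) : ℕ) = 1 := by
            exact Nat.mod_eq_of_lt hB
          rw [h1, Nat.mod_eq_of_lt (by omega)]

theorem ac_bN (a : ℕ) : ac M (gen .bN ^ (2 ^ (a + M.B))) (base M.B) = base M.B := by
  rw [(bN_pow M _).1, base]
  congr 1
  apply Fin.ext
  simp [pow_add]

theorem ot_bN (a : ℕ) : ot M (gen .bN ^ (2 ^ (a + M.B))) (base M.B) = gen .bN ^ (2 ^ a) := by
  rw [(bN_pow M _).2, pow_add, Nat.mul_div_cancel _ (by positivity)]

theorem ac_bN0 (r : ℕ) (hr : r < M.B) : ac M (gen .bN ^ (2 ^ r)) (base M.B) =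
    .inl ⟨2 ^ r, Nat.pow_lt_pow_right (by norm_num) hr⟩ := by
  rw [(bN_pow M _).1]
  congr 1
  apply Fin.ext
  simp only
  rw [Nat.mod_eq_of_lt (Nat.pow_lt_pow_right (by norm_num) hr)]

theorem ot_bN0 (r : ℕ) (hr : r < M.B) : ot M (gen .bN ^ (2 ^ r)) (base M.B) = 1 := by
  rw [(bN_pow M _).2, Nat.div_eq_of_lt (Nat.pow_lt_pow_right (by norm_num) hr), pow_zero]

end passes

end Pool.Agent.Helper702.FreePCP
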