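import Mathlib
import Pool.Agent.Helper702.FreePCP.Dyn

set_option autoImplicit false

/-! The passes of the simulation. -/

namespace Pool.Agent.Helper702.FreePCP

variable {Q : Type} (M : BM Q)

theorem ac4 (a b c d : FreeGroup (X Q)) (s : W M.B) :
    ac M (a * b * c * d) s = ac M a (ac M b (ac M c (ac M d s))) := by
  simp only [ac, act_mul]

theorem ot4 (a b c d : FreeGroup (X Q)) (s : W M.B) :
    ot M (a * b * c * d) s = ot M a (ac M b (ac M c (ac M d s))) * ot M b (ac M c (ac M d s)) *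
      ot M c (ac M d s) * ot M d s := by
  simp only [ac, ot, act_mul, out_mul, mul_assoc]

/-- words of the first phase -/
def W1 (q : Q) (e1 e2 e3 e4 : ℕ) : FreeGroup (X Q) :=
  gen (.aD q) ^ (2 ^ e1) * gen .bN ^ (2 ^ e2) * gen .bF ^ (2 ^ e3) * gen .bD ^ (2 ^ e4)

/-- words of the second phase -/
def W2 (q : Q) (f e1 e3 e4 : ℕ) : FreeGroup (X Q) :=
  gen (.aF q) ^ (2 ^ f) * gen (.aD q) ^ (2 ^ e1) * gen .bF ^ (2 ^ e3) * gen .bD ^ (2 ^ e4)

/-- words of the third phase -/
def W3 (q : Q) (n f e1 e4 : ℕ) : FreeGroup (X Q) :=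
  gen .aN ^ (2 ^ n) * gen (.aF q) ^ (2 ^ f) * gen (.aD q) ^ (2 ^ e1) * gen .bD ^ (2 ^ e4)

theorem pass1 (q : Q) (e1 a e3 e4 : ℕ) :
    S M (W1 q e1 (a + M.B) (e3 + 1) (e4 + 1), (false, q)) =
      some (W1 q (e1 + M.c q) a e3 e4, (false, q)) := by
  simp only [S, W1, ac4, ot4, ac_bD, ac_bF, ac_bN, ac_aDp, ot_bD, ot_bF, ot_bN]
  rw [ot_aDp _ _ _ _ (base_ne M)]
  simp only [base, rule, if_true, Option.map_some, one_mul, ← pow_add, add_comm (M.c q)]

theorem pass1n (q : Q) (e1 r e3 e4 : ℕ) (hr : r < M.B) :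
    S M (W1 q e1 r (e3 + 1) (e4 + 1), (false, q)) =
      (M.nxt q r).map fun q' => (W2 q (M.g + M.c q - 1 - M.d q r) (e1 + M.c q) e3 e4,
        (true, q')) := by
  have h0 : (⟨2 ^ r, Nat.pow_lt_pow_right (by norm_num) hr⟩ : Fin (2 ^ M.B)) ≠ 0 := by
    intro h
    have := congrArg Fin.val h
    simp at this
  simp only [S, W1, ac4, ot4, ac_bD, ac_bF, ac_bN0 M r hr, ac_aDp, ot_bD, ot_bF, ot_bN0 M r hr]
  rw [ot_aDp _ _ _ _ (by simp)]
  have hl : Nat.log 2 (2 ^ r) = r := Nat.log_pow (by norm_num) r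
  simp only [rule, if_neg h0, Option.map_map, hl]
  congr 1
  funext q'
  simp only [Function.comp_apply, W2, Prod.mk.injEq, and_true]
  rw [← pow_add, add_comm (M.c q) e1, mul_one]
  simp only [mul_assoc]

theorem pass2 (q q' : Q) (f e1 e3 e4 : ℕ) :
    S M (W2 q f e1 (e3 + 1) (e4 + 1), (true, q')) =
      some (W2 q (f + M.c q) (e1 + M.c q) e3 e4, (true, q')) := by
  simp only [S, W2, ac4, ot4, ac_bD, ac_bF, ac_aDp, ac_aFp, ot_bD, ot_bF]
  rw [ot_aDp _ _ _ _ (base_ne M), ot_aFp _ _ _ _ (base_ne M)]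
  simp only [base, rule, if_true, Option.map_some, one_mul, ← pow_add, add_comm (M.c q)]

theorem pass2n (q q' : Q) (f e1 e4 : ℕ) :
    S M (W2 q f e1 0 (e4 + 1), (true, q')) =
      some (W3 q 0 (f + M.c q) (e1 + M.c q) e4, (true, q')) := by
  simp only [S, W2, ac4, ot4, ac_bD, ac_bF0, ac_aDp, ac_aFp, ot_bD, ot_bF0]
  rw [ot_aDp _ _ _ _ (by simp), ot_aFp _ _ _ _ (by simp)]
  simp only [rule, Option.map_some, mul_one, ← pow_add, add_comm (M.c q), W3, pow_zero, pow_one,
    mul_assoc]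

theorem pass3 (q q' : Q) (n f e1 e4 : ℕ) :
    S M (W3 q n f e1 (e4 + 1), (true, q')) =
      some (W3 q (n + 1) (f + M.c q) (e1 + M.c q) e4, (true, q')) := by
  simp only [S, W3, ac4, ot4, ac_bD, ac_aDp, ac_aFp, ac_aNp, ot_bD]
  rw [ot_aDp _ _ _ _ (base_ne M), ot_aFp _ _ _ _ (base_ne M), ot_aNp _ _ _ (base_ne M)]
  simp only [base, rule, if_true, Option.map_some, one_mul, ← pow_add, add_comm (M.c q),
    ← pow_succ']

theorem pass3n (q q' : Q) (n f e1 : ℕ) :
    S M (W3 q n f e1 0, (true, q')) =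
      some (W1 q' M.g n f e1, (false, q')) := by
  simp only [S, W3, ac4, ot4, ac_bD0, ac_aDp, ac_aFp, ac_aNp, ot_bD0]
  rw [ot_aDd, ot_aFd, ot_aNd]
  simp only [rule, Option.map_some, mul_one, W1, mul_assoc]

theorem it1 (k : ℕ) : ∀ (q : Q) (e1 r e3 e4 : ℕ),
    it (S M) k (W1 q e1 (r + M.B * k) (e3 + k) (e4 + k), (false, q)) =
      some (W1 q (e1 + M.c q * k) r e3 e4, (false, q)) := by
  induction k with
  | zero => intro q e1 r e3 e4; simp [it]
  | succ k ih =>
    intro q e1 r e3 e4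
    have h1 : r + M.B * (k + 1) = (r + M.B * k) + M.B := by ring
    rw [h1, ← add_assoc, ← add_assoc]
    simp only [it]
    rw [pass1, Option.bind_some, ih]
    congr 3
    ring

theorem it2 (k : ℕ) : ∀ (q q' : Q) (f e1 e3 e4 : ℕ),
    it (S M) k (W2 q f e1 (e3 + k) (e4 + k), (true, q')) =
      some (W2 q (f + M.c q * k) (e1 + M.c q * k) e3 e4, (true, q')) := by
  induction k with
  | zero => intro q q' f e1 e3 e4; simp [it]
  | succ k ih =>
    intro q q' f e1 e3 e4
    rw [← add_assoc, ← add_assoc]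
    simp only [it]
    rw [pass2, Option.bind_some, ih]
    congr 3 <;> ring

theorem it3 (k : ℕ) : ∀ (q q' : Q) (n f e1 e4 : ℕ),
    it (S M) k (W3 q n f e1 (e4 + k), (true, q')) =
      some (W3 q (n + k) (f + M.c q * k) (e1 + M.c q * k) e4, (true, q')) := by
  induction k with
  | zero => intro q q' n f e1 e4; simp [it]
  | succ k ih =>
    intro q q' n f e1 e4
    rw [← add_assoc]
    simp only [it]
    rw [pass3, Option.bind_some, ih]
    congr 3 <;> ring

/-- the configurations at the start of a block -/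
def R (x : Q × ℕ × ℕ) (y : FreeGroup (X Q) × (Bool × Q)) : Prop :=
  ∃ L, x.2.1 / M.B + x.2.2 + 2 ≤ L ∧ y = (W1 x.1 M.g x.2.1 (L - 1 - x.2.2) L, (false, x.1))

theorem to_fire (q : Q) (a b L : ℕ) (hL : a / M.B + b + 2 ≤ L) :
    it (S M) (a / M.B) (W1 q M.g a (L - 1 - b) L, (false, q)) =
      some (W1 q (M.g + M.c q * (a / M.B)) (a % M.B) (L - 1 - b - a / M.B) (L - a / M.B),
        (false, q)) := by
  have := it1 M (a / M.B) q M.g (a % M.B) (L - 1 - b - a / M.B) (L - a / M.B)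
  rw [← this, Nat.mod_add_div]
  generalize a / M.B = k at *
  have h1 : L - 1 - b - k + k = L - 1 - b := by omega
  have h2 : L - k + k = L := by omega
  rw [h1, h2]

theorem block' (q q' : Q) (k r b j : ℕ) (hr : r < M.B) (hq : M.nxt q r = some q') :
    it (S M) (k + (1 + (j + (1 + (b + 1)))))
      (W1 q M.g (r + M.B * k) (j + 1 + k) (j + b + 1 + 1 + k), (false, q)) =
    some (W1 q' M.g b (M.g + M.c q - 1 - M.d q r + M.c q * j + M.c q + M.c q * b)
      (M.g + M.c q * k + M.c q + M.c q * j + M.c q + M.c q * b), (false, q')) := by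
  have e0 := it1 M k q M.g r (j + 1) (j + b + 1 + 1)
  have e1 := pass1n M q (M.g + M.c q * k) r j (j + b + 1) hr
  rw [hq, Option.map_some] at e1
  have e2 := it2 M j q q' (M.g + M.c q - 1 - M.d q r) (M.g + M.c q * k + M.c q) 0 (b + 1)
  have h3 : 0 + j = j := by omega
  have h4 : b + 1 + j = j + b + 1 := by omega
  rw [h3, h4] at e2
  have e3 := pass2n M q q' (M.g + M.c q - 1 - M.d q r + M.c q * j)
    (M.g + M.c q * k + M.c q + M.c q * j) b
  have e4 := it3 M b q q' 0 (M.g + M.c q - 1 - M.d q r + M.c q * j + M.c q)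
    (M.g + M.c q * k + M.c q + M.c q * j + M.c q) 0
  have h5 : 0 + b = b := by omega
  rw [h5] at e4
  have e5 := pass3n M q q' b (M.g + M.c q - 1 - M.d q r + M.c q * j + M.c q + M.c q * b)
    (M.g + M.c q * k + M.c q + M.c q * j + M.c q + M.c q * b)
  have s1 : ∀ x : FreeGroup (X Q) × (Bool × Q), it (S M) 1 x = S M x := by
    intro x
    simp [it]
  rw [it_add, e0, Option.bind_some, it_add, s1, e1, Option.bind_some, it_add, e2,
    Option.bind_some, it_add, s1, e3, Option.bind_some, it_add, e4, Option.bind_some, s1, e5]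

theorem block (q q' : Q) (a b L : ℕ) (hL : a / M.B + b + 2 ≤ L) (hq : M.nxt q (a % M.B) = some q') :
    ∃ k y', 1 ≤ k ∧ it (S M) k (W1 q M.g a (L - 1 - b) L, (false, q)) = some y' ∧
      R M (q', b, M.c q * (a / M.B) + M.d q (a % M.B)) y' := by
  obtain ⟨j, rfl⟩ := Nat.exists_eq_add_of_le hL
  have hr : a % M.B < M.B := Nat.mod_lt _ M.hB
  have hc := M.hc q
  have hd := M.hd q (a % M.B)
  have ha := Nat.mod_add_div a M.B
  have e := block' M q q' (a / M.B) (a % M.B) b j hr hq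
  rw [ha] at e
  have h6 : b / M.B ≤ b := Nat.div_le_self _ _
  have h7 : b ≤ M.c q * b := Nat.le_mul_of_pos_left _ (by omega)
  generalize a % M.B = r at *
  generalize a / M.B = k at *
  generalize b / M.B = z at *
  refine ⟨(k + (1 + (j + (1 + (b + 1))))),
    (W1 q' M.g b (M.g + M.c q - 1 - M.d q r + M.c q * j + M.c q + M.c q * b)
      (M.g + M.c q * k + M.c q + M.c q * j + M.c q + M.c q * b), (false, q')), ?_, ?_, ?_⟩
  · omega
  · rw [← e]
    have h1 : k + b + 2 + j - 1 - b = j + 1 + k := by omega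
    have h2 : k + b + 2 + j = j + b + 1 + 1 + k := by omega
    rw [h1, h2]
  · refine ⟨M.g + M.c q * k + M.c q + M.c q * j + M.c q + M.c q * b, ?_, ?_⟩
    · simp only
      have h6 : b / M.B ≤ b := Nat.div_le_self _ _
      generalize b / M.B = z at *
      omega
    · simp only
      have h8 : M.g + M.c q * k + M.c q + M.c q * j + M.c q + M.c q * b - 1 -
        (M.c q * k + M.d q r) =
          M.g + M.c q - 1 - M.d q r + M.c q * j + M.c q + M.c q * b := by omega
      rw [h8]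

/-- The passes simulate the machine. -/
theorem passes_hlt (x : Q × ℕ × ℕ) (y : FreeGroup (X Q) × (Bool × Q)) (h : R M x y) :
    Hlt M.step x ↔ Hlt (S M) y := by
  refine simulate M.step (S M) (R M) ?_ ?_ x y h
  · rintro ⟨q, a, b⟩ y ⟨L, hL, rfl⟩ hs
    simp only at hL
    have hn : M.nxt q (a % M.B) = none := by
      cases h : M.nxt q (a % M.B) with
      | none => rfl
      | some _ => rw [BM.step] at hs; simp [h] at hs
    rw [hlt_it (to_fire M q a b L hL)]
    refine ⟨1, ?_⟩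
    have h1 : L - 1 - b - a / M.B = (L - 1 - b - a / M.B - 1) + 1 := by
      generalize a / M.B = k at *
      omega
    have h2 : L - a / M.B = (L - a / M.B - 1) + 1 := by
      generalize a / M.B = k at *
      omega
    rw [h1, h2]
    simp only [it]
    rw [pass1n M q _ _ _ _ (Nat.mod_lt _ M.hB), hn]
    rfl
  · rintro ⟨q, a, b⟩ y ⟨q', z⟩ ⟨L, hL, rfl⟩ hs
    simp only at hL
    have h : M.nxt q (a % M.B) = some q' ∧
        (b, M.c q * (a / M.B) + M.d q (a % M.B)) = z := by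
      rw [BM.step] at hs
      cases h : M.nxt q (a % M.B) with
      | none => simp [h] at hs
      | some _ => simpa [h] using hs
    obtain ⟨hq, rfl⟩ := h
    exact block M q q' a b L hL hq

end Pool.Agent.Helper702.FreePCP
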