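import Mathlib
import Pool.Agent.Helper702.FreePCP.Equal
import Pool.Agent.Helper702.FreePCP.Pass

set_option autoImplicit false

/-! The orbit of the simulation and the equaliser. -/

namespace Pool.Agent.Helper702.FreePCP

section orbit

variable {Q : Type} (M : BM Q) {H : Type} [Group H] (e : H ≃* stab (pi M) (ou M) (base M.B))

/-- the inclusion -/
def ga : H →* FreeGroup (X Q) := (stab (pi M) (ou M) (base M.B)).subtype.comp e.toMonoidHom

/-- the other homomorphism -/
def et : H →* FreeGroup (X Q) := (psi (pi M) (ou M) (base M.B)).comp e.toMonoidHom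

theorem ga_injective : Function.Injective (ga M e) :=
  (Subtype.val_injective).comp e.injective

/-- the preimage of an element of the orbit -/
def Yo (x : FreeGroup (X Q) × (Bool × Q)) (K : ℕ) : H :=
  e.symm ⟨U x K, (mem_stab _ _).2 (ac_U M x K)⟩

theorem ga_Yo (x : FreeGroup (X Q) × (Bool × Q)) (K : ℕ) : ga M e (Yo M e x K) = U x K := by
  simp [ga, Yo]

theorem et_eq (y : H) : et M e y = ot M (ga M e y) (base M.B) := rfl

theorem et_Yo (x : FreeGroup (X Q) × (Bool × Q)) (K : ℕ) :
    et M e (Yo M e x K) = Un (S M x) K := by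
  rw [et_eq, ga_Yo, ot_U]

theorem U_ne_one (x : FreeGroup (X Q) × (Bool × Q)) (K : ℕ) (hK : 0 < K) : U x K ≠ 1 := by
  intro h
  have h1 := hsum_U x K
  rw [h, map_one] at h1
  have h2 : (0 : ℤ) = K := congrArg Multiplicative.toAdd h1
  omega

theorem dies_iff (x : FreeGroup (X Q) × (Bool × Q)) (K : ℕ) (hK : 0 < K) :
    Dies (ga M e) (et M e) (U x K) ↔ Hlt (S M) x := by
  constructor
  · intro h
    generalize hv : U x K = v at h
    induction h generalizing x K with
    | one => exact absurd hv (U_ne_one x K hK)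
    | step y _ ih =>
      have h1 : et M e y = Un (S M x) K := by
        rw [et_eq, ← hv, ot_U]
      cases hs : S M x with
      | none => exact ⟨1, by simp [it, hs]⟩
      | some z =>
        rw [hs] at h1
        rw [hlt_step hs]
        exact ih z (2 * K) (by omega) h1.symm
  · rintro ⟨n, hn⟩
    induction n generalizing x K with
    | zero => simp [it] at hn
    | succ n ih =>
      rw [← ga_Yo M e x K]
      apply Dies.step
      rw [et_Yo]
      cases hs : S M x with
      | none => exact Dies.one
      | some z =>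
        refine ih z (2 * K) (by omega) ?_
        simpa [it, hs] using hn

theorem orbit (x : FreeGroup (X Q) × (Bool × Q)) (h : ¬ Hlt (S M) x) :
    ∃ (V : ℕ → FreeGroup (X Q)) (Y : ℕ → H), V 0 = U x 1 ∧ (∀ k, ga M e (Y k) = V k) ∧
      (∀ k, et M e (Y k) = V (k + 1)) ∧ Function.Injective V ∧ ∀ k, V k ≠ 1 := by
  have h1 : ∀ n, ∃ y, it (S M) n x = some y := by
    intro n
    cases hn : it (S M) n x with
    | none => exact absurd ⟨n, hn⟩ h
    | some y => exact ⟨y, rfl⟩
  choose y hy using h1
  have hS : ∀ n, S M (y n) = some (y (n + 1)) := by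
    intro n
    have := hy (n + 1)
    rw [it_add, hy n] at this
    simpa [it] using this
  have h0 : y 0 = x := by
    have := hy 0
    simpa [it] using this.symm
  refine ⟨fun n => U (y n) (2 ^ n), fun n => Yo M e (y n) (2 ^ n), ?_, ?_, ?_, ?_, ?_⟩
  · simp [h0]
  · intro k
    exact ga_Yo M e _ _
  · intro k
    simp only
    rw [et_Yo, hS, pow_succ']
    rfl
  · intro m n hmn
    have h2 := congrArg hsum hmn
    simp only [hsum_U] at h2
    have h3 : ((2 ^ m : ℕ) : ℤ) = ((2 ^ n : ℕ) : ℤ) := congrArg Multiplicative.toAdd h2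
    have h4 : 2 ^ m = 2 ^ n := by exact_mod_cast h3
    exact Nat.pow_right_injective (le_refl 2) h4
  · intro k
    exact U_ne_one _ _ (by positivity)

/-- the start -/
def u0 (q : Q) (N : ℕ) : FreeGroup (X Q) := U (W1 q M.g N (N + 1) (N + 2), (false, q)) 1

/-- The equaliser is nontrivial exactly when the machine stops. -/
theorem machine_iff (q : Q) (N : ℕ) :
    (∃ w : HN (G2 H), w ≠ 1 ∧
      gs (gh (ga M e)) w = hs (hh (et M e)) (inc false (u0 M q N)) w) ↔
      Hlt M.step (q, N, 0) := by
  have h1 := passes_hlt M (q, N, 0) (W1 q M.g N (N + 1) (N + 2), (false, q)) (by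
    refine ⟨N + 2, ?_, ?_⟩
    · simp only [add_zero, add_le_add_iff_right]
      exact Nat.div_le_self _ _
    · simp)
  rw [h1, ← dies_iff M e (W1 q M.g N (N + 1) (N + 2), (false, q)) 1 (by norm_num)]
  apply equal_iff _ _ (ga_injective M e)
  intro hd
  apply orbit
  intro hH
  apply hd
  exact (dies_iff M e _ 1 (by norm_num)).2 hH

end orbit

end Pool.Agent.Helper702.FreePCP
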