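import Mathlib
import Pool.Agent.Helper702.FreePCP.Orbit

set_option autoImplicit false

/-! Finite bases. -/

namespace Pool.Agent.Helper702.FreePCP

theorem finite_of_fg (α : Type) [Group.FG (FreeGroup α)] : Finite α := by
  have h1 : Group.FG (Abelianization (FreeGroup α)) :=
    Group.fg_of_surjective (f := QuotientGroup.mk' (commutator (FreeGroup α)))
      (QuotientGroup.mk'_surjective _)
  have h2 : AddGroup.FG (Additive (Abelianization (FreeGroup α))) := inferInstance
  have h3 : AddGroup.FG (FreeAbelianGroup α) := h2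
  have h4 : Module.Finite ℤ (FreeAbelianGroup α) := Module.Finite.iff_addGroup_fg.2 h3
  exact Module.Finite.finite_basis (FreeAbelianGroup.basis α)

theorem exists_basis (α : Type) [Finite α] (D : Subgroup (FreeGroup α)) [D.FiniteIndex] :
    ∃ n, Nonempty (FreeGroup (Fin n) ≃* D) := by
  have h0 : Group.FG (FreeGroup α) := inferInstance
  have h1 : Group.FG D := Subgroup.fg_of_index_ne_zero D
  have h2 : IsFreeGroup D := inferInstance
  have e : D ≃* FreeGroup (IsFreeGroup.Generators D) := IsFreeGroup.toFreeGroup D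
  have h3 : Group.FG (FreeGroup (IsFreeGroup.Generators D)) :=
    Group.fg_of_surjective (f := e.toMonoidHom) e.surjective
  have h4 : Finite (IsFreeGroup.Generators D) := finite_of_fg _
  obtain ⟨n, ⟨e2⟩⟩ := Finite.exists_equiv_fin (IsFreeGroup.Generators D)
  exact ⟨n, ⟨(FreeGroup.freeGroupCongr e2.symm).trans e.symm⟩⟩

section pres

variable (Y : Type)

/-- the free group as a free product with an infinite cyclic group -/
def toHN : FreeGroup ((Bool × Y) ⊕ Unit) →* HN (G2 (FreeGroup Y)) :=
  FreeGroup.lift fun x => match x with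
    | .inl (b, y) => HNNExtension.of (inc b (FreeGroup.of y))
    | .inr _ => HNNExtension.t

/-- the inverse -/
def ofHN : HN (G2 (FreeGroup Y)) →* FreeGroup ((Bool × Y) ⊕ Unit) :=
  HNNExtension.lift (Monoid.CoprodI.lift fun b => FreeGroup.lift fun y =>
    FreeGroup.of (.inl (b, y))) (FreeGroup.of (.inr ())) (by
    rintro ⟨a, ha⟩
    rw [Subgroup.mem_bot] at ha
    subst ha
    simp)

theorem ofHN_of_inc (b : Bool) (f : FreeGroup Y) :
    ofHN Y (HNNExtension.of (inc b f)) = FreeGroup.map (fun y => .inl (b, y)) f := by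
  rw [ofHN, HNNExtension.lift_of, inc, Monoid.CoprodI.lift_of, FreeGroup.map_eq_lift]
  rfl

theorem ofHN_t : ofHN Y HNNExtension.t = FreeGroup.of (.inr ()) := by
  rw [ofHN, HNNExtension.lift_t]

theorem ofHN_toHN : (ofHN Y).comp (toHN Y) = MonoidHom.id _ := by
  apply FreeGroup.ext_hom
  rintro (⟨b, y⟩ | u)
  · simp [toHN, ofHN_of_inc]
  · simp [toHN, ofHN_t]

theorem toHN_ofHN : (toHN Y).comp (ofHN Y) = MonoidHom.id _ := by
  apply HNNExtension.hom_ext
  · apply Monoid.CoprodI.ext_hom
    intro b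
    apply FreeGroup.ext_hom
    intro y
    change toHN Y (ofHN Y (HNNExtension.of (inc b (FreeGroup.of y)))) = _
    rw [ofHN_of_inc]
    simp [toHN]
    rfl
  · simp [toHN, ofHN_t]

/-- the isomorphism -/
def eqHN : FreeGroup ((Bool × Y) ⊕ Unit) ≃* HN (G2 (FreeGroup Y)) :=
  MonoidHom.toMulEquiv (toHN Y) (ofHN Y) (ofHN_toHN Y) (toHN_ofHN Y)

end pres

end Pool.Agent.Helper702.FreePCP
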