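import Mathlib

set_option autoImplicit false

/-! Words made of blocks. -/

namespace Pool.Agent.Helper702.FreePCP

section words2

variable {α : Type}

/-- the word of a list of blocks -/
def ex : List ((α × Bool) × ℕ) → List (α × Bool)
  | [] => []
  | b :: l => List.replicate b.2 b.1 ++ ex l

theorem head_ex (l : List ((α × Bool) × ℕ)) (h : ∀ b ∈ l, 1 ≤ b.2) (y : α × Bool)
    (hy : y ∈ (ex l).head?) : ∃ b ∈ l.head?, b.1 = y := by
  rcases l with _ | ⟨b, l⟩
  · simp [ex] at hy
  · have hb := h b (by simp)
    refine ⟨b, by simp, ?_⟩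
    obtain ⟨k, hk⟩ := Nat.exists_eq_add_of_le hb
    rw [ex, hk, add_comm, List.replicate_succ] at hy
    simpa using hy

theorem reduced_ex (l : List ((α × Bool) × ℕ)) (h : ∀ b ∈ l, 1 ≤ b.2)
    (hc : l.IsChain (fun a b => a.1.1 ≠ b.1.1)) : FreeGroup.IsReduced (ex l) := by
  induction l with
  | nil => exact FreeGroup.IsReduced.nil
  | cons b l ih =>
    have h1 := ih (fun c hc' => h c (List.mem_cons_of_mem _ hc')) hc.tail
    unfold FreeGroup.IsReduced at h1 ⊢
    rw [ex, List.isChain_append]
    refine ⟨?_, h1, ?_⟩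
    · apply List.isChain_replicate_of_rel
      intro _
      rfl
    · intro x hx y hy
      obtain ⟨c, hc1, rfl⟩ := head_ex l (fun c hc' => h c (List.mem_cons_of_mem _ hc')) y hy
      have hx' : x = b.1 := List.eq_of_mem_replicate (List.mem_of_mem_getLast? hx)
      subst hx'
      rcases l with _ | ⟨d, l⟩
      · simp at hc1
      · simp only [List.head?_cons, Option.mem_def, Option.some.injEq] at hc1
        subst hc1
        intro h2
        exact absurd h2 (List.isChain_cons_cons.1 hc).1

theorem mk_replicate_true (x : α) (k : ℕ) :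
    FreeGroup.mk (List.replicate k (x, true)) = FreeGroup.of x ^ k := by
  induction k with
  | zero => rfl
  | succ k ih =>
    rw [List.replicate_succ, pow_succ', ← ih]
    rfl

theorem mk_replicate_false (x : α) (k : ℕ) :
    FreeGroup.mk (List.replicate k (x, false)) = (FreeGroup.of x ^ k)⁻¹ := by
  induction k with
  | zero => rfl
  | succ k ih =>
    rw [List.replicate_succ, pow_succ, mul_inv_rev, ← ih]
    rfl

theorem mk_ex_cons (b : (α × Bool) × ℕ) (l : List ((α × Bool) × ℕ)) :
    FreeGroup.mk (ex (b :: l)) = FreeGroup.mk (List.replicate b.2 b.1) * FreeGroup.mk (ex l) := by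
  rw [FreeGroup.mul_mk]
  rfl

end words2

theorem primrec_two_pow : Primrec (fun n : ℕ => 2 ^ n) := by
  have h : Primrec (fun n : ℕ => n.rec (motive := fun _ => ℕ) 1 (fun _ ih => ih * 2)) :=
    Primrec.nat_rec' (f := fun n : ℕ => n) (g := fun _ => 1) (h := fun _ p => p.2 * 2)
      Primrec.id (Primrec.const 1)
      ((Primrec.nat_mul.comp (Primrec.snd.comp Primrec.snd) (Primrec.const 2)).to₂)
  refine h.of_eq ?_
  intro n
  induction n with
  | zero => rfl
  | succ n ih => rw [pow_succ, ← ih]

theorem primrec_replicate {α : Type} [Primcodable α] (c : α) {f : ℕ → ℕ} (hf : Primrec f) :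
    Primrec (fun n => List.replicate (f n) c) := by
  have h : Primrec (fun n => (List.range (f n)).map (fun _ => c)) :=
    Primrec.list_map (Primrec.list_range.comp hf) (Primrec.const c).to₂
  refine h.of_eq ?_
  intro n
  simp

end Pool.Agent.Helper702.FreePCP
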