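import Mathlib
import Pool.Agent.Helper702.FreePCP.Basis
import Pool.Agent.Helper702.FreePCP.Words

set_option autoImplicit false

/-! The word-level form. -/

namespace Pool.Agent.Helper702.FreePCP

section final

variable {Q : Type} (M : BM Q) {n₀ n m : ℕ}
  (e : FreeGroup (Fin n₀) ≃* stab (pi M) (ou M) (base M.B))
  (e1 : (Bool × Fin n₀) ⊕ Unit ≃ Fin n) (e2 : (Bool × X Q) ⊕ Unit ≃ Fin m)

/-- the domain -/
def Ad : FreeGroup (Fin n) ≃* HN (G2 (FreeGroup (Fin n₀))) :=
  (FreeGroup.freeGroupCongr e1.symm).trans (eqHN (Fin n₀))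

/-- the codomain -/
def Bd : HN (G2 (FreeGroup (X Q))) ≃* FreeGroup (Fin m) :=
  (eqHN (X Q)).symm.trans (FreeGroup.freeGroupCongr e2)

/-- the first homomorphism -/
def F1 : FreeGroup (Fin n) →* FreeGroup (Fin m) :=
  (Bd e2).toMonoidHom.comp ((gs (gh (ga M e))).comp (Ad e1).toMonoidHom)

/-- the second homomorphism -/
def F2 (u : FreeGroup (X Q)) : FreeGroup (Fin n) →* FreeGroup (Fin m) :=
  (Bd e2).toMonoidHom.comp ((hs (hh (et M e)) (inc false u)).comp (Ad e1).toMonoidHom)

theorem F_iff (u : FreeGroup (X Q)) :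
    (∃ x : FreeGroup (Fin n), x ≠ 1 ∧ F1 M e e1 e2 x = F2 M e e1 e2 u x) ↔
    (∃ w : HN (G2 (FreeGroup (Fin n₀))), w ≠ 1 ∧
      gs (gh (ga M e)) w = hs (hh (et M e)) (inc false u) w) := by
  constructor
  · rintro ⟨x, hx, h⟩
    refine ⟨Ad e1 x, ?_, (Bd e2).injective h⟩
    intro h1
    apply hx
    apply (Ad e1).injective
    rw [h1, map_one]
  · rintro ⟨w, hw, h⟩
    refine ⟨(Ad e1).symm w, ?_, ?_⟩
    · intro h1
      apply hw
      apply (Ad e1).symm.injective
      rw [h1, map_one]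
    · simp only [F1, F2, MonoidHom.comp_apply]
      have : (Ad e1).toMonoidHom ((Ad e1).symm w) = w := (Ad e1).apply_symm_apply w
      rw [this, h]

theorem Ad_inr (u : Unit) : Ad e1 (FreeGroup.of (e1 (.inr u))) = HNNExtension.t := by
  simp [Ad, eqHN, toHN]

theorem Ad_inl (b : Bool) (y : Fin n₀) : Ad e1 (FreeGroup.of (e1 (.inl (b, y)))) =
    HNNExtension.of (inc b (FreeGroup.of y)) := by
  simp [Ad, eqHN, toHN]

theorem Bd_t : Bd e2 HNNExtension.t = FreeGroup.of (e2 (.inr ())) := by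
  have : (eqHN (X Q)).symm HNNExtension.t = FreeGroup.of (.inr ()) := ofHN_t _
  simp [Bd, this]

theorem Bd_inc (f : FreeGroup (X Q)) : Bd e2 (HNNExtension.of (inc false f)) =
    FreeGroup.map (fun x => e2 (.inl (false, x))) f := by
  have : (eqHN (X Q)).symm (HNNExtension.of (inc false f)) =
      FreeGroup.map (fun y => .inl (false, y)) f := ofHN_of_inc _ _ _
  simp only [Bd, MulEquiv.trans_apply, this]
  change FreeGroup.map e2 _ = _
  rw [FreeGroup.map.comp]
  rfl

theorem F2_inl (u v : FreeGroup (X Q)) (b : Bool) (y : Fin n₀) :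
    F2 M e e1 e2 u (FreeGroup.of (e1 (.inl (b, y)))) =
      F2 M e e1 e2 v (FreeGroup.of (e1 (.inl (b, y)))) := by
  simp only [F2, MonoidHom.comp_apply]
  have : (Ad e1).toMonoidHom (FreeGroup.of (e1 (.inl (b, y)))) =
    HNNExtension.of (inc b (FreeGroup.of y)) := Ad_inl e1 b y
  rw [this, hs_of, hs_of]

theorem F2_inr (u : FreeGroup (X Q)) :
    F2 M e e1 e2 u (FreeGroup.of (e1 (.inr ()))) =
      FreeGroup.of (e2 (.inr ())) * FreeGroup.map (fun x => e2 (.inl (false, x))) u := by
  simp only [F2, MonoidHom.comp_apply]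
  have : (Ad e1).toMonoidHom (FreeGroup.of (e1 (.inr ()))) = HNNExtension.t := Ad_inr e1 ()
  rw [this, hs_t]
  change Bd e2 (HNNExtension.t * HNNExtension.of (inc false u)) = _
  rw [map_mul, Bd_t, Bd_inc]

/-- the blocks of the word -/
def blocks (q : Q) (N : ℕ) : List ((Fin m × Bool) × ℕ) :=
  [((e2 (.inr ()), true), 1),
   ((e2 (.inl (false, .bD)), false), 2 ^ (N + 2)),
   ((e2 (.inl (false, .bF)), false), 2 ^ (N + 1)),
   ((e2 (.inl (false, .bN)), false), 2 ^ N),
   ((e2 (.inl (false, .aD q)), false), 2 ^ M.g),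
   ((e2 (.inl (false, .hd false q)), true), 1),
   ((e2 (.inl (false, .aD q)), true), 2 ^ M.g),
   ((e2 (.inl (false, .bN)), true), 2 ^ N),
   ((e2 (.inl (false, .bF)), true), 2 ^ (N + 1)),
   ((e2 (.inl (false, .bD)), true), 2 ^ (N + 2))]

theorem blocks_reduced (q : Q) (N : ℕ) : FreeGroup.IsReduced (ex (blocks M e2 q N)) := by
  apply reduced_ex
  · intro b hb
    simp only [blocks, List.mem_cons, List.not_mem_nil, or_false] at hb
    rcases hb with rfl | rfl | rfl | rfl | rfl | rfl | rfl | rfl | rfl | rfl <;>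
      first | exact le_refl _ | exact Nat.one_le_two_pow
  · simp [blocks]

theorem blocks_mk (q : Q) (N : ℕ) : FreeGroup.mk (ex (blocks M e2 q N)) =
    F2 M e e1 e2 (u0 M q N) (FreeGroup.of (e1 (.inr ()))) := by
  rw [F2_inr]
  simp only [blocks, mk_ex_cons, mk_replicate_true, mk_replicate_false, u0, U, W1, map_mul,
    map_inv, map_pow, FreeGroup.map.of, gen, pow_one, mul_inv_rev]
  have : FreeGroup.mk (ex ([] : List ((Fin m × Bool) × ℕ))) = 1 := rfl
  rw [this]
  simp only [mul_assoc, mul_one]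

theorem blocks_primrec (q : Q) : Primrec (fun N => ex (blocks M e2 q N)) := by
  simp only [blocks, ex]
  have h0 := primrec_two_pow
  have h1 : Primrec (fun N : ℕ => 2 ^ (N + 1)) :=
    h0.comp (Primrec.nat_add.comp Primrec.id (Primrec.const 1))
  have h2 : Primrec (fun N : ℕ => 2 ^ (N + 2)) :=
    h0.comp (Primrec.nat_add.comp Primrec.id (Primrec.const 2))
  refine Primrec.list_append.comp (primrec_replicate _ (Primrec.const _)) ?_
  refine Primrec.list_append.comp (primrec_replicate _ h2) ?_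
  refine Primrec.list_append.comp (primrec_replicate _ h1) ?_
  refine Primrec.list_append.comp (primrec_replicate _ h0) ?_
  refine Primrec.list_append.comp (primrec_replicate _ (Primrec.const _)) ?_
  refine Primrec.list_append.comp (primrec_replicate _ (Primrec.const _)) ?_
  refine Primrec.list_append.comp (primrec_replicate _ (Primrec.const _)) ?_
  refine Primrec.list_append.comp (primrec_replicate _ h0) ?_
  refine Primrec.list_append.comp (primrec_replicate _ h1) ?_
  exact Primrec.list_append.comp (primrec_replicate _ h2) (Primrec.const _)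

/-- the words of the first homomorphism -/
def c1 : Fin n → List (Fin m × Bool) := fun i => (F1 M e e1 e2 (FreeGroup.of i)).toWord

/-- the words of the second homomorphism -/
def c2 (q : Q) (N : ℕ) : Fin n → List (Fin m × Bool) := fun i =>
  if i = e1 (.inr ()) then ex (blocks M e2 q N)
  else (F2 M e e1 e2 1 (FreeGroup.of i)).toWord

theorem c1_lift : FreeGroup.lift (fun i => FreeGroup.mk (c1 M e e1 e2 i)) = F1 M e e1 e2 := by
  apply FreeGroup.ext_hom
  intro i
  simp [c1, FreeGroup.mk_toWord]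

theorem c2_lift (q : Q) (N : ℕ) :
    FreeGroup.lift (fun i => FreeGroup.mk (c2 M e e1 e2 q N i)) = F2 M e e1 e2 (u0 M q N) := by
  apply FreeGroup.ext_hom
  intro i
  rw [FreeGroup.lift_apply_of]
  by_cases hi : i = e1 (.inr ())
  · rw [c2, if_pos hi, hi]
    exact blocks_mk M e e1 e2 q N
  · rw [c2, if_neg hi, FreeGroup.mk_toWord]
    obtain ⟨j, rfl⟩ := e1.surjective i
    rcases j with ⟨b, y⟩ | u
    · exact F2_inl M e e1 e2 _ _ b y
    · exact absurd rfl hi

theorem c1_reduced (i : Fin n) : FreeGroup.IsReduced (c1 M e e1 e2 i) :=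
  FreeGroup.isReduced_toWord

theorem c2_reduced (q : Q) (N : ℕ) (i : Fin n) : FreeGroup.IsReduced (c2 M e e1 e2 q N i) := by
  unfold c2
  split_ifs
  · exact blocks_reduced M e2 q N
  · exact FreeGroup.isReduced_toWord

theorem c2_primrec (q : Q) : Primrec (fun N => c2 M e e1 e2 q N) := by
  rw [Primrec.fin_curry]
  have h : Primrec₂ (fun (i : Fin n) (N : ℕ) => c2 M e e1 e2 q N i) := by
    rw [Primrec.fin_curry₁]
    intro i
    by_cases hi : i = e1 (.inr ())
    · simp only [c2, if_pos hi]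
      exact blocks_primrec M e2 q
    · simp only [c2, if_neg hi]
      exact Primrec.const _
  exact h.swap

end final

/-- The Post correspondence problem for free groups is undecidable. -/
theorem main : ∃ n m : ℕ, 1 ≤ n ∧ 1 ≤ m ∧ ¬ ∃ f : (Fin n → List (Fin m × Bool)) ×
    (Fin n → List (Fin m × Bool)) → Bool, Computable f ∧
      ∀ p : (Fin n → List (Fin m × Bool)) × (Fin n → List (Fin m × Bool)),
        (∀ i, FreeGroup.IsReduced (p.1 i)) → (∀ i, FreeGroup.IsReduced (p.2 i)) →
        (f p = true ↔ ∃ x : FreeGroup (Fin n), x ≠ 1 ∧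
          FreeGroup.lift (fun i => FreeGroup.mk (p.1 i)) x =
            FreeGroup.lift (fun i => FreeGroup.mk (p.2 i)) x) := by
  classical
  obtain ⟨Q, hQ, M, q0, N, hN, hM⟩ := exists_bm
  obtain ⟨n₀, ⟨e⟩⟩ := exists_basis (X Q) (stab (pi M) (ou M) (base M.B))
  obtain ⟨n, ⟨e1⟩⟩ := Finite.exists_equiv_fin ((Bool × Fin n₀) ⊕ Unit)
  obtain ⟨m, ⟨e2⟩⟩ := Finite.exists_equiv_fin ((Bool × X Q) ⊕ Unit)
  refine ⟨n, m, ?_, ?_, ?_⟩
  · exact Nat.one_le_iff_ne_zero.2 (fun h => by subst h; exact (e1 (.inr ())).elim0)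
  · exact Nat.one_le_iff_ne_zero.2 (fun h => by subst h; exact (e2 (.inr ())).elim0)
  · rintro ⟨f, hf, hp⟩
    apply hM
    have h1 : Computable (fun k => f (c1 M e e1 e2, c2 M e e1 e2 q0 (N k))) :=
      hf.comp (Computable.pair (Computable.const _) ((c2_primrec M e e1 e2 q0).to_comp.comp hN))
    have h2 : ∀ k, f (c1 M e e1 e2, c2 M e e1 e2 q0 (N k)) = true ↔
        Hlt M.step (q0, N k, 0) := by
      intro k
      rw [hp _ (c1_reduced M e e1 e2) (c2_reduced M e e1 e2 q0 (N k)),
        ← machine_iff M e q0 (N k), ← F_iff M e e1 e2, c1_lift, c2_lift]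
    refine ⟨fun k => decidable_of_iff _ (h2 k), ?_⟩
    refine h1.of_eq ?_
    intro k
    by_cases hk : Hlt M.step (q0, N k, 0)
    · rw [(h2 k).2 hk]
      simp [hk]
    · have : f (c1 M e e1 e2, c2 M e e1 e2 q0 (N k)) = false := by
        rw [← Bool.not_eq_true, h2 k]
        exact hk
      rw [this]
      simp [hk]

end Pool.Agent.Helper702.FreePCP
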